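import Pool.Agent.R867.J.Conic
import Pool.Agent.R867.Mov.DC

/-! Varieties with fibrations in curves of genus at most one with moving moduli. -/

set_option autoImplicit false

namespace Pool.Agent.R867.J

open Polynomial Pool.Agent.R867.Mov

universe u

variable {k K : Type u} [Field k] [Field K] [Algebra k K]

/-- the fibration: `K` is the function field of `w² = Q(t)` over `L`, with `Q` separable of degree
between one and four, and `L` is algebraically closed in `K` -/
structure Fib (L : IntermediateField k K) (t w : K) (Q : L[X]) : Prop where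
  closed : ∀ z : K, IsAlgebraic L z → z ∈ L
  line : DoubleLine L t w Q
  sep : Q.Separable
  pos : 1 ≤ Q.natDegree
  le_four : Q.natDegree ≤ 4

variable {L : IntermediateField k K} {t w : K} {Q : L[X]}

theorem Fib.cl (h : Fib L t w Q) (z : K) (hz : z ∈ cl k (L : Set K)) : z ∈ L := by
  apply h.closed
  rw [mem_cl_iff] at hz
  refine isAlg_mono Subtype.val_injective Subtype.val_injective (fun r => ?_) hz
  have h1 : IntermediateField.adjoin k (L : Set K) ≤ L := by
    rw [IntermediateField.adjoin_le_iff]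
  exact ⟨⟨r, h1 r.2⟩, rfl⟩

/-- a field with the immovable elements -/
structure ImmHull (M : IntermediateField k K) : Prop where
  eq : (M : Set K) = Mov.cl k {a | Imm k a}

theorem exists_immHull : ∃ M : IntermediateField k K, ImmHull M := by
  obtain ⟨M, hM⟩ := cl_closed (k := k) {a : K | Imm k a}
  exact ⟨M, ⟨hM⟩⟩

theorem ImmHull.cl {M : IntermediateField k K} (h : ImmHull M) (z : K)
    (hz : z ∈ Mov.cl k (M : Set K)) : z ∈ M := by
  have h1 : z ∈ (M : Set K) := by
    rw [h.eq] at hz ⊢
    exact cl_sub (fun _ hy => hy) hz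
  exact h1

theorem ImmHull.le {M N : IntermediateField k K} (h : ImmHull M)
    (hN : ∀ z, z ∈ Mov.cl k (N : Set K) → z ∈ N) (hI : ∀ a, Imm k a → a ∈ N) : M ≤ N := by
  intro z hz
  have h1 : z ∈ (M : Set K) := hz
  rw [h.eq] at h1
  apply hN
  refine cl_sub ?_ h1
  intro a ha
  exact subset_cl _ (hI a ha)

theorem ImmHull.endo {M : IntermediateField k K} (h : ImmHull M) (T : K →ₐ[k] K) :
    ∀ z ∈ M, T z ∈ M := by
  intro z hz
  have h1 : z ∈ (M : Set K) := hz
  rw [h.eq] at h1
  have h2 := cl_map T h1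
  have h3 : T z ∈ (M : Set K) := by
    rw [h.eq]
    refine cl_sub ?_ h2
    rintro _ ⟨a, ha, rfl⟩
    exact subset_cl _ (Imm.map ha T)
  exact h3

theorem ImmHull.not_movable {M : IntermediateField k K} (h : ImmHull M) {a : K} (ha : a ∈ M)
    {n : ℕ} (σ : K →ₐ[k] Rt n K) : σ a ∈ Set.range (algebraMap K (Rt n K)) := by
  have h1 : a ∈ (M : Set K) := ha
  rw [h.eq] at h1
  have h2 := cl_map σ h1
  apply rt_cl (k := k)
  refine cl_sub ?_ h2
  rintro _ ⟨b, hb, rfl⟩
  exact subset_cl _ (hb n σ)

/-- genus one: the field of the immovable elements lies in the base or contains the modulus -/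
theorem Fib.genus_one [CharZero K] (h : Fib L t w Q) (h3 : 3 ≤ Q.natDegree)
    {M : IntermediateField k K} (hM : ImmHull M) (hle : ¬ M ≤ L) :
    algebraMap L K (modulus Q) ∈ M := by
  by_contra hj
  obtain ⟨T, d, hS, hdt⟩ := h.line.exists_selfMap h.cl h.sep h3 h.le_four
  obtain ⟨a, haM, haL⟩ := SetLike.not_le_iff_exists.mp hle
  obtain ⟨D, hDL, hDj, c, hc, hcomm⟩ := hS.comm hM.cl (hM.endo T) haM haL (j := algebraMap L K (modulus Q))
    (modulus Q).2 hj
  apply hDj
  exact h.line.modulus_const h.sep h3 h.le_four d D hS.kills hdt hDL hc (hcomm t)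

/-- genus zero: the field of the immovable elements lies in the base -/
theorem Fib.genus_zero [CharZero K] (h : Fib L t w Q) (h2 : Q.natDegree ≤ 2)
    {M : IntermediateField k K} (hM : ImmHull M) : M ≤ L := by
  apply hM.le h.cl
  intro a ha
  by_contra haL
  obtain ⟨σ, hσ⟩ := conic_hom h.line h.sep h.pos h2 (Ω := Rt 1 K)
    (fun z hz => mem_range_of_isAlgebraic hz) tt_not
  apply hσ
  -- `t` is algebraic over `a` and `L`
  have h1 : t ∈ Mov.cl k (insert a (L : Set K)) := by
    refine cl_exch (h.line.gen_cl h.le_four a) (fun h2 => haL (h.cl a h2))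
  have h4 := cl_map (σ.restrictScalars k) h1
  apply rt_cl (k := k)
  refine cl_sub ?_ h4
  rintro _ ⟨b, rfl | hb, rfl⟩
  · exact subset_cl _ (ha 1 (σ.restrictScalars k))
  · apply subset_cl
    have h5 : σ (algebraMap L K ⟨b, hb⟩) = algebraMap L (Rt 1 K) ⟨b, hb⟩ := σ.commutes _
    exact ⟨b, by
      change algebraMap K (Rt 1 K) (algebraMap L K ⟨b, hb⟩) = σ (algebraMap L K ⟨b, hb⟩)
      rw [h5, ← IsScalarTower.algebraMap_apply]⟩

/-- the criterion -/
theorem criterion [IsAlgClosed k] [CharZero k]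
    (hfg : ∃ S : Finset K, IntermediateField.adjoin k (S : Set K) = ⊤)
    (hyp : ∀ M : IntermediateField k K, M ≠ ⊥ → (∀ z : K, IsAlgebraic M z → z ∈ M) →
      (∃ a ∈ M, ∃ (n : ℕ) (σ : K →ₐ[k] Rt n K), σ a ∉ Set.range (algebraMap K (Rt n K))) ∨
      ∃ (L : IntermediateField k K) (t w : K) (Q : L[X]), Fib L t w Q ∧ ¬ M ≤ L ∧
        (Q.natDegree ≤ 2 ∨ algebraMap L K (modulus Q) ∉ M)) :
    ∃ n, Nonempty (K →ₐ[k] Rt n k) := by
  have hcK : CharZero K := charZero_of_injective_algebraMap (algebraMap k K).injective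
  obtain ⟨M, hM⟩ := exists_immHull (k := k) (K := K)
  by_cases hbot : M = ⊥
  · refine unirational_of_imm hfg fun a ha => ?_
    have h1 : a ∈ (M : Set K) := by
      rw [hM.eq]
      exact subset_cl _ ha
    rw [mem_cl_iff, IntermediateField.adjoin_empty]
    rw [hbot] at h1
    exact isAlgebraic_algebraMap (⟨a, h1⟩ : (⊥ : IntermediateField k K))
  · exfalso
    rcases hyp M hbot (fun z hz => by
      apply hM.cl
      rw [mem_cl_iff]
      refine isAlg_mono Subtype.val_injective Subtype.val_injective (fun r => ?_) hz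
      exact ⟨⟨r, IntermediateField.subset_adjoin _ _ r.2⟩, rfl⟩) with
      ⟨a, ha, n, σ, hσ⟩ | ⟨L, t, w, Q, hF, hle, hdeg⟩
    · exact hσ (hM.not_movable ha σ)
    · rcases Nat.lt_or_ge Q.natDegree 3 with h2 | h3
      · exact hle (hF.genus_zero (by omega) hM)
      · rcases hdeg with h2 | hj
        · omega
        · exact hj (hF.genus_one h3 hM hle)

end Pool.Agent.R867.J
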