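import Pool.Agent.R867.J.Tors3
import Pool.Agent.R867.J.Main

/-! Torsors under elliptic curves: the field of the immovable elements. -/

set_option autoImplicit false
set_option linter.unusedSectionVars false

namespace Pool.Agent.R867.J

open Polynomial Pool.Agent.R867.Mov WeierstrassCurve Pool.Agent.Y720.MZ Pool.Agent.Y742.GG

universe u

variable {k K : Type u} [Field k] [Field K] [Algebra k K] {L : IntermediateField k K}

section

variable {K' : Type u} [Field K'] [Algebra K K'] [DecidableEq K'] [Algebra k K']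
  [IsScalarTower k K K'] {a b c : L} {X' Y' : K'} [FiniteDimensional K K'] [IsGalois K K']

theorem td_modulus [CharZero K] (H : TD L a b c X' Y')
    (hcl : ∀ z, z ∈ Mov.cl k (L : Set K) → z ∈ L) {M : IntermediateField k K} (hM : ImmHull M)
    (hle : ¬ M ≤ L) : algebraMap L K (modulus (cub a b c)) ∈ M := by
  have hc' : CharZero K' := charZero_of_injective_algebraMap (algebraMap K K').injective
  by_contra hj
  obtain ⟨t, T, d, μ, D₁, hS, hext, hX, hkill⟩ := td_selfMap H hcl
  obtain ⟨x, hxM, hxL⟩ := SetLike.not_le_iff_exists.mp hle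
  obtain ⟨D, hDL, hDj, c₀, hc₀, hcomm⟩ := hS.comm hM.cl (hM.endo T) hxM hxL
    (j := algebraMap L K (modulus (cub a b c))) (modulus (cub a b c)).2 hj
  obtain ⟨N, hN⟩ := exists_cst (L := L) (K' := K')
  -- the extension of `D`
  obtain ⟨Dz, hDz⟩ := exists_zDer D
  obtain ⟨D₂, hD₂⟩ := ext_der (K' := K') Dz
  obtain ⟨D', hD'⟩ := exists_kDer (k := k) D₂ (fun y => by
    rw [IsScalarTower.algebraMap_apply k K K', hD₂, hDz, D.map_algebraMap, map_zero])
  have hDext : ∀ z, D' (algebraMap K K' z) = algebraMap K K' (D z) := fun z => by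
    rw [hD', hD₂, hDz]
  have hinj := (algebraMap K K').injective
  have hDN : ∀ z ∈ N, D' z ∈ N := by
    intro z hz
    refine der_mem (N := L.map (IsScalarTower.toAlgHom k K K')) D' ?_ ?_ hz ?_
    · rintro _ ⟨y, hy, rfl⟩
      exact hN.base ⟨y, hy⟩
    · rintro _ ⟨y, hy, rfl⟩
      change D' (algebraMap K K' y) ∈ N
      rw [hDext]
      exact hN.base ⟨D y, hDL y hy⟩
    · refine isAlg_mono (algebraMap L K').injective Subtype.val_injective (fun r => ?_)
        ((hN.mem z).mp hz)
      exact ⟨⟨algebraMap K K' r, ⟨r, r.2, rfl⟩⟩, rfl⟩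
  have hbr : ∀ z, D' (D₁ z) - D₁ (D' z) = algebraMap K K' c₀ * D₁ z := by
    intro z
    have h1 : (⁅D', D₁⁆ - algebraMap K K' c₀ • D₁) z = 0 := by
      refine der_cl (⁅D', D₁⁆ - algebraMap K K' c₀ • D₁) (S := Set.range (algebraMap K K')) ?_ ?_
      · rintro _ ⟨y, rfl⟩
        rw [Derivation.sub_apply, Derivation.commutator_apply, Derivation.smul_apply, hext, hDext,
          hDext, hext, smul_eq_mul, ← map_mul, ← map_sub, ← map_sub, hcomm, sub_self, map_zero]
      · rw [mem_cl_iff]
        refine isAlg_mono (algebraMap K K').injective Subtype.val_injective (fun r => ?_)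
          (Algebra.IsAlgebraic.isAlgebraic (R := K) z)
        exact ⟨⟨_, IntermediateField.subset_adjoin _ _ ⟨r, rfl⟩⟩, rfl⟩
    rw [Derivation.sub_apply, Derivation.commutator_apply, Derivation.smul_apply, smul_eq_mul,
      sub_eq_zero] at h1
    exact h1
  have hcN : CharZero N := ⟨fun m n h => by
    have h1 := congrArg (algebraMap N K') h
    rw [map_natCast, map_natCast] at h1
    exact_mod_cast h1⟩
  have hfin := (td_line H hN).modulus_const (td_sep H hN) (by rw [cub_natDegree])
    (by rw [cub_natDegree]; norm_num) D₁ D'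
    (fun z hz => hkill z ((hN.mem z).mp hz)) hX hDN (hN.base ⟨c₀, hc₀⟩) (hbr X')
  apply hDj
  apply hinj
  rw [← hDext, map_zero, ← hfin]
  congr 1
  simp only [modulus, invI, invJ, map_div₀, map_sub, map_add, map_mul, map_pow, map_ofNat]
  have h4 : ∀ {F : Type u} [Field F] (x y z : F), (cub x y z).coeff 4 = 0 ∧
      (cub x y z).coeff 3 = 1 ∧ (cub x y z).coeff 2 = x ∧ (cub x y z).coeff 1 = y ∧
      (cub x y z).coeff 0 = z := by
    intro F _ x y z
    unfold cub
    refine ⟨?_, ?_, ?_, ?_, ?_⟩ <;> simp [coeff_X, coeff_C]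
  obtain ⟨e4, e3, e2, e1, e0⟩ := h4 a b c
  obtain ⟨f4, f3, f2, f1, f0⟩ := h4 (⟨_, hN.base a⟩ : N) ⟨_, hN.base b⟩ ⟨_, hN.base c⟩
  rw [e4, e3, e2, e1, e0, f4, f3, f2, f1, f0]
  simp only [map_zero, map_one]
  rfl

end

/-- `K` is the function field of a torsor under the elliptic curve `y² = x³ + a x² + b x + c` -/
def IsTorsor (L : IntermediateField k K) (a b c : L) : Prop :=
  ∃ (K' : Type u) (_ : Field K') (_ : Algebra K K') (_ : DecidableEq K'),
    FiniteDimensional K K' ∧ IsGalois K K' ∧ ∃ X Y : K', TD L a b c X Y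

theorem torsor_modulus [CharZero K] {a b c : L} (H : IsTorsor L a b c)
    (hcl : ∀ z : K, IsAlgebraic L z → z ∈ L) {M : IntermediateField k K} (hM : ImmHull M)
    (hle : ¬ M ≤ L) : algebraMap L K (modulus (cub a b c)) ∈ M := by
  obtain ⟨K', _, _, _, hfin, hgal, X, Y, H⟩ := H
  let i : Algebra k K' := ((algebraMap K K').comp (algebraMap k K)).toAlgebra
  have ht : IsScalarTower k K K' := IsScalarTower.of_algebraMap_eq fun _ => rfl
  refine td_modulus H (fun z hz => ?_) hM hle
  apply hcl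
  rw [mem_cl_iff] at hz
  refine isAlg_mono Subtype.val_injective Subtype.val_injective (fun r => ?_) hz
  have h1 : IntermediateField.adjoin k (L : Set K) ≤ L := by
    rw [IntermediateField.adjoin_le_iff]
  exact ⟨⟨r, h1 r.2⟩, rfl⟩

theorem mem_hull {M : IntermediateField k K} (hM : ImmHull M) (hbot : M = ⊥) {a : K}
    (ha : Imm k a) : a ∈ Set.range (algebraMap k K) := by
  have h1 : a ∈ (M : Set K) := by
    rw [hM.eq]
    exact subset_cl _ ha
  rw [hbot] at h1
  exact IntermediateField.mem_bot.mp h1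

/-- no compatible field with immovable elements: every nonconstant function is movable -/
theorem all_movable [CharZero K]
    (hyp : ∀ M : IntermediateField k K, M ≠ ⊥ → (∀ z : K, IsAlgebraic M z → z ∈ M) →
      (∃ a ∈ M, ∃ (n : ℕ) (σ : K →ₐ[k] Rt n K), σ a ∉ Set.range (algebraMap K (Rt n K))) ∨
      (∃ (L : IntermediateField k K) (t w : K) (Q : L[X]), Fib L t w Q ∧ ¬ M ≤ L ∧
        (Q.natDegree ≤ 2 ∨ algebraMap L K (modulus Q) ∉ M)) ∨
      (∃ (L : IntermediateField k K) (a b c : L), IsTorsor L a b c ∧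
        (∀ z : K, IsAlgebraic L z → z ∈ L) ∧ ¬ M ≤ L ∧
        algebraMap L K (modulus (X ^ 3 + C a * X ^ 2 + C b * X + C c)) ∉ M)) (a : K)
    (ha : a ∉ Set.range (algebraMap k K)) : Movable k a := by
  obtain ⟨M, hM⟩ := exists_immHull (k := k) (K := K)
  by_cases hbot : M = ⊥
  · by_contra hmov
    apply ha
    apply mem_hull hM hbot
    intro n σ
    by_contra h2
    exact hmov ⟨n, σ, h2⟩
  · exfalso
    rcases hyp M hbot (fun z hz => by
      apply hM.cl
      rw [mem_cl_iff]
      refine isAlg_mono Subtype.val_injective Subtype.val_injective (fun r => ?_) hz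
      exact ⟨⟨r, IntermediateField.subset_adjoin _ _ r.2⟩, rfl⟩) with
      ⟨a, ha, n, σ, hσ⟩ | ⟨L, t, w, Q, hF, hle, hdeg⟩ | ⟨L, a, b, c, hT, hcl, hle, hj⟩
    · exact hσ (hM.not_movable ha σ)
    · rcases Nat.lt_or_ge Q.natDegree 3 with h2 | h3
      · exact hle (hF.genus_zero (by omega) hM)
      · rcases hdeg with h2 | hj
        · omega
        · exact hj (hF.genus_one h3 hM hle)
    · exact hj (torsor_modulus hT hcl hM hle)

/-- the criterion over an algebraically closed field -/
theorem criterion2 [IsAlgClosed k] [CharZero k]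
    (hfg : ∃ S : Finset K, IntermediateField.adjoin k (S : Set K) = ⊤)
    (hyp : ∀ M : IntermediateField k K, M ≠ ⊥ → (∀ z : K, IsAlgebraic M z → z ∈ M) →
      (∃ a ∈ M, ∃ (n : ℕ) (σ : K →ₐ[k] Rt n K), σ a ∉ Set.range (algebraMap K (Rt n K))) ∨
      (∃ (L : IntermediateField k K) (t w : K) (Q : L[X]), Fib L t w Q ∧ ¬ M ≤ L ∧
        (Q.natDegree ≤ 2 ∨ algebraMap L K (modulus Q) ∉ M)) ∨
      (∃ (L : IntermediateField k K) (a b c : L), IsTorsor L a b c ∧
        (∀ z : K, IsAlgebraic L z → z ∈ L) ∧ ¬ M ≤ L ∧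
        algebraMap L K (modulus (X ^ 3 + C a * X ^ 2 + C b * X + C c)) ∉ M)) :
    ∃ n, Nonempty (K →ₐ[k] Rt n k) := by
  have hcK : CharZero K := charZero_of_injective_algebraMap (algebraMap k K).injective
  rw [main hfg]
  exact all_movable hyp

end Pool.Agent.R867.J
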