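import Mathlib

/-! Endomorphisms of fields: fixed elements, linear disjointness of stable fields. -/

set_option autoImplicit false

namespace Pool.Agent.R867.J

open Polynomial

universe u v

variable {k : Type u} {K : Type v} [Field k] [Field K] [Algebra k K]

/-- iterates of an endomorphism which fixes the coefficients -/
theorem aeval_endo {N : IntermediateField k K} (T : K →ₐ[k] K) (hT : ∀ z ∈ N, T z = z) (p : N[X])
    (y : K) : T (aeval y p) = aeval (T y) p := by
  induction p using Polynomial.induction_on' with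
  | add p q hp hq => simp only [map_add, hp, hq]
  | monomial n a =>
    rw [aeval_monomial, aeval_monomial, map_mul, map_pow]
    congr 1
    exact hT _ a.2

/-- An endomorphism does not fix `N` pointwise if it divides an algebraic element by `μ`. -/
theorem no_mult [CharZero K] {N : IntermediateField k K} (T : K →ₐ[k] K) (hT : ∀ z ∈ N, T z = z)
    {μ : ℤ} (hμ : 2 ≤ |μ|) {y : K} (hy0 : y ≠ 0) (hy : y = μ * T y) (halg : IsAlgebraic N y) :
    False := by
  have hμ0 : (μ : K) ≠ 0 := by
    have : μ ≠ 0 := by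
      rintro rfl
      norm_num at hμ
    exact_mod_cast this
  obtain ⟨p, hp0, hp⟩ := halg
  have hroot : ∀ n : ℕ, aeval (y / (μ : K) ^ n) p = 0 := by
    intro n
    induction n with
    | zero => simpa using hp
    | succ n ih =>
      have h1 := congrArg T ih
      rw [aeval_endo T hT, map_zero, map_div₀, map_pow, map_intCast] at h1
      have h2 : T y / (μ : K) ^ n = y / (μ : K) ^ (n + 1) := by
        rw [div_eq_div_iff (pow_ne_zero _ hμ0) (pow_ne_zero _ hμ0)]
        conv_rhs => rw [hy]
        ring
      rw [h2] at h1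
      exact h1
  have hinj : Function.Injective (fun n : ℕ => y / (μ : K) ^ n) := by
    intro m n hmn
    have h1 : y / (μ : K) ^ m = y / (μ : K) ^ n := hmn
    rw [div_eq_div_iff (pow_ne_zero _ hμ0) (pow_ne_zero _ hμ0)] at h1
    have h2 : (μ : K) ^ n = (μ : K) ^ m := mul_left_cancel₀ hy0 h1
    have h3 : μ ^ n = μ ^ m := by exact_mod_cast h2
    have h4 : |μ| ^ n = |μ| ^ m := by
      rw [← abs_pow, ← abs_pow, h3]
    exact (pow_right_injective₀ (by omega) (by omega : |μ| ≠ 1) h4).symm
  have hfin : (p.rootSet K).Finite := p.rootSet_finite K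
  apply Set.infinite_range_of_injective hinj
  refine hfin.subset ?_
  rintro _ ⟨n, rfl⟩
  rw [mem_rootSet]
  exact ⟨hp0, hroot n⟩

theorem iter_mem {M : IntermediateField k K} (T : K →ₐ[k] K) (hM : ∀ z ∈ M, T z ∈ M) (n : ℕ) {z : K}
    (hz : z ∈ M) : (T^[n]) z ∈ M := by
  induction n with
  | zero => exact hz
  | succ n ih =>
    rw [Function.iterate_succ_apply']
    exact hM _ ih

theorem iter_sum (T : K →ₐ[k] K) {ι : Type*} (s : Finset ι) (v g : ι → K) (n : ℕ)
    (hv : ∀ i ∈ s, T (v i) = v i) :
    ∑ i ∈ s, v i * (T^[n]) (g i) = (T^[n]) (∑ i ∈ s, v i * g i) := by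
  induction n with
  | zero => rfl
  | succ n ih =>
    rw [Function.iterate_succ_apply', ← ih, map_sum]
    refine Finset.sum_congr rfl fun i hi => ?_
    rw [map_mul, hv i hi, Function.iterate_succ_apply']

theorem iter_zero (T : K →ₐ[k] K) (n : ℕ) : (T^[n]) 0 = 0 := by
  induction n with
  | zero => rfl
  | succ n ih => rw [Function.iterate_succ_apply, map_zero, ih]

theorem rel_step {M L : IntermediateField k K} (T : K →ₐ[k] K) (hM : ∀ z ∈ M, T z ∈ M)
    (hfix : ∀ z, T z = z → z ∈ L) {ι : Type*} [DecidableEq ι] (g : ι → K)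
    (s : Finset ι) (v : ι → K) (hv : ∀ i ∈ s, v i ∈ M) (hne : ∃ i ∈ s, v i ≠ 0) (n₀ : ℕ)
    (hrel : ∀ n, n₀ ≤ n → ∑ i ∈ s, v i * (T^[n]) (g i) = 0) :
    ∃ c : ι → K, (∀ i, c i ∈ M ⊓ L) ∧ (∃ i ∈ s, c i ≠ 0) ∧ ∑ i ∈ s, c i * g i = 0 := by
  induction s using Finset.strongInduction generalizing v n₀ with
  | H s ih =>
    obtain ⟨i₀, hi₀, h0⟩ := hne
    -- normalise
    obtain ⟨u, hu⟩ : ∃ u : ι → K, ∀ i, u i = v i / v i₀ := ⟨_, fun _ => rfl⟩
    have hu0 : u i₀ = 1 := by rw [hu, div_self h0]
    have huM : ∀ i ∈ s, u i ∈ M := fun i hi => by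
      rw [hu]
      exact div_mem (hv i hi) (hv i₀ hi₀)
    have hurel : ∀ n, n₀ ≤ n → ∑ i ∈ s, u i * (T^[n]) (g i) = 0 := by
      intro n hn
      have h1 := hrel n hn
      have h2 : ∑ i ∈ s, u i * (T^[n]) (g i) = (∑ i ∈ s, v i * (T^[n]) (g i)) / v i₀ := by
        rw [Finset.sum_div]
        exact Finset.sum_congr rfl fun i _ => by rw [hu]; ring
      rw [h2, h1, zero_div]
    by_cases hall : ∀ i ∈ s, T (u i) = u i
    · refine ⟨fun i => if i ∈ s then u i else 0, fun i => ?_, ⟨i₀, hi₀, ?_⟩, ?_⟩
      · dsimp only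
        split_ifs with hi
        · exact ⟨huM i hi, hfix _ (hall i hi)⟩
        · exact zero_mem _
      · dsimp only
        rw [if_pos hi₀, hu0]
        exact one_ne_zero
      · have h1 := hurel n₀ le_rfl
        rw [iter_sum T s u g n₀ hall] at h1
        have hinj : Function.Injective (T^[n₀]) := Function.Injective.iterate T.injective n₀
        have h2 : ∑ i ∈ s, u i * g i = 0 := by
          apply hinj
          rw [h1, iter_zero]
        refine Eq.trans (Finset.sum_congr rfl fun i hi => ?_) h2
        dsimp only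
        rw [if_pos hi]
    · push Not at hall
      obtain ⟨i₁, hi₁, h1⟩ := hall
      have hi₁₀ : i₁ ≠ i₀ := by
        rintro rfl
        rw [hu0, map_one] at h1
        exact h1 rfl
      have hs : s.erase i₀ ⊂ s := Finset.erase_ssubset hi₀
      obtain ⟨c, hc1, ⟨i₂, hi₂, hc2⟩, hc3⟩ := ih (s.erase i₀) hs (fun i => T (u i) - u i)
        (fun i hi => sub_mem (hM _ (huM i (Finset.mem_of_mem_erase hi)))
          (huM i (Finset.mem_of_mem_erase hi)))
        ⟨i₁, Finset.mem_erase.mpr ⟨hi₁₀, hi₁⟩, sub_ne_zero.mpr h1⟩ (n₀ + 1) (by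
          intro n hn
          obtain ⟨m, rfl⟩ : ∃ m, n = m + 1 := ⟨n - 1, by omega⟩
          have h2 := hurel m (by omega)
          have h3 := congrArg T h2
          rw [map_sum, map_zero] at h3
          have h4 := hurel (m + 1) (by omega)
          have h5 : ∑ i ∈ s, (T (u i) - u i) * (T^[m + 1]) (g i) = 0 := by
            have h6 : ∀ i ∈ s, (T (u i) - u i) * (T^[m + 1]) (g i) =
                T (u i * (T^[m]) (g i)) - u i * (T^[m + 1]) (g i) := by
              intro i _
              rw [map_mul, Function.iterate_succ_apply' (f := T)]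
              ring
            rw [Finset.sum_congr rfl h6, Finset.sum_sub_distrib, h3, h4, sub_zero]
          rw [← Finset.add_sum_erase s _ hi₀] at h5
          have h6 : (T (u i₀) - u i₀) * (T^[m + 1]) (g i₀) = 0 := by
            rw [hu0, map_one, sub_self, zero_mul]
          rw [h6, zero_add] at h5
          exact h5)
      refine ⟨fun i => if i = i₀ then 0 else c i, fun i => ?_, ⟨i₂, Finset.mem_of_mem_erase hi₂, ?_⟩,
        ?_⟩
      · dsimp only
        split_ifs
        · exact zero_mem _
        · exact hc1 i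
      · dsimp only
        rw [if_neg (Finset.ne_of_mem_erase hi₂)]
        exact hc2
      · rw [← Finset.add_sum_erase s _ hi₀]
        dsimp only
        rw [if_pos rfl, zero_mul, zero_add, ← hc3]
        exact Finset.sum_congr rfl fun i hi => by rw [if_neg (Finset.ne_of_mem_erase hi)]

/-- A stable field is linearly disjoint from the fixed field. -/
theorem lin_disj {M L : IntermediateField k K} (T : K →ₐ[k] K) (hM : ∀ z ∈ M, T z ∈ M)
    (hL : ∀ z ∈ L, T z = z) (hfix : ∀ z, T z = z → z ∈ L) {ι : Type*} [Fintype ι] [DecidableEq ι]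
    (g : ι → K) (hg : ∀ i, g i ∈ M) (c : ι → K) (hc : ∀ i, c i ∈ L) (hne : ∃ i, c i ≠ 0)
    (hrel : ∑ i, c i * g i = 0) :
    ∃ c' : ι → K, (∀ i, c' i ∈ M ⊓ L) ∧ (∃ i, c' i ≠ 0) ∧ ∑ i, c' i * g i = 0 := by
  have hall : ∀ n, ∑ i, c i * (T^[n]) (g i) = 0 := by
    intro n
    rw [iter_sum T Finset.univ c g n (fun i _ => hL _ (hc i)), hrel, iter_zero]
  -- a relation with coefficients in `M`
  let G : ℕ → (ι → M) := fun n i => ⟨(T^[n]) (g i), iter_mem T hM n (hg i)⟩
  let ψ : (ι → M) →ₗ[M] K :=
    { toFun := fun x => ∑ i, c i * (x i : K)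
      map_add' := fun x y => by
        simp only [Pi.add_apply, AddMemClass.coe_add, mul_add, Finset.sum_add_distrib]
      map_smul' := fun a x => by
        simp only [Pi.smul_apply, RingHom.id_apply, Finset.smul_sum]
        refine Finset.sum_congr rfl fun i _ => ?_
        change c i * ((a : K) * (x i : K)) = (a : K) * (c i * (x i : K))
        ring }
  have hW : Submodule.span M (Set.range G) < ⊤ := by
    rw [lt_top_iff_ne_top]
    intro h0
    have h1 : Submodule.span M (Set.range G) ≤ LinearMap.ker ψ := by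
      rw [Submodule.span_le]
      rintro _ ⟨n, rfl⟩
      exact hall n
    rw [h0, top_le_iff, LinearMap.ker_eq_top] at h1
    obtain ⟨i, hi⟩ := hne
    apply hi
    have h2 : ψ (Pi.single i 1) = 0 := by rw [h1]; rfl
    have h3 : ψ (Pi.single i 1) = c i := by
      change ∑ j, c j * ((Pi.single i (1 : M) : ι → M) j : K) = c i
      rw [Finset.sum_eq_single i]
      · rw [Pi.single_eq_same]
        simp
      · intro j _ hj
        rw [Pi.single_eq_of_ne hj]
        simp
      · intro h
        exact absurd (Finset.mem_univ i) h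
    rw [← h3, h2]
  obtain ⟨f, hf0, hf⟩ := Submodule.exists_le_ker_of_lt_top _ hW
  obtain ⟨c', h1, ⟨i, -, h2⟩, h3⟩ := rel_step (M := M) (L := L) T hM hfix g Finset.univ
    (fun i => (f (Pi.single i 1) : K)) (fun i _ => (f (Pi.single i 1)).2) (by
      by_contra hcon
      push Not at hcon
      apply hf0
      apply LinearMap.pi_ext'
      intro i
      apply LinearMap.ext_ring
      have := hcon i (Finset.mem_univ i)
      simp only [LinearMap.comp_apply, LinearMap.zero_apply]
      have h4 : f (Pi.single i 1) = 0 := by exact_mod_cast this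
      exact h4) 0 (by
      intro n _
      have h4 : G n ∈ LinearMap.ker f := hf (Submodule.subset_span ⟨n, rfl⟩)
      have h5 : f (G n) = 0 := h4
      have h6 : G n = ∑ i, (G n i) • (Pi.single i (1 : M) : ι → M) := by
        funext j
        rw [Finset.sum_apply, Finset.sum_eq_single j]
        · rw [Pi.smul_apply, Pi.single_eq_same, smul_eq_mul, mul_one]
        · intro b _ hb
          rw [Pi.smul_apply, Pi.single_eq_of_ne (Ne.symm hb), smul_zero]
        · intro h
          exact absurd (Finset.mem_univ j) h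
      rw [h6, map_sum] at h5
      have h7 := congrArg (fun z : M => (z : K)) h5
      simp only [map_smul, smul_eq_mul, AddSubmonoidClass.coe_finset_sum, MulMemClass.coe_mul,
        ZeroMemClass.coe_zero] at h7
      rw [← h7]
      exact Finset.sum_congr rfl fun i _ => mul_comm _ _)
  exact ⟨c', h1, ⟨i, h2⟩, h3⟩

end Pool.Agent.R867.J
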