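import Pool.Agent.R867.J.Der
import Pool.Agent.R867.J.LD

/-! A stable field which is not contained in the fixed field, and derivations which commute with
the endomorphism. -/

set_option autoImplicit false

namespace Pool.Agent.R867.J

open Polynomial Pool.Agent.R867.Mov

universe u v

theorem isAlg_mono {K : Type v} [Field K] {R₁ R₂ : Type*} [CommRing R₁] [CommRing R₂] [Algebra R₁ K]
    [Algebra R₂ K] (h1 : Function.Injective (algebraMap R₁ K))
    (h2 : Function.Injective (algebraMap R₂ K))
    (hle : ∀ r : R₁, ∃ r' : R₂, algebraMap R₂ K r' = algebraMap R₁ K r) {z : K}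
    (h : IsAlgebraic R₁ z) : IsAlgebraic R₂ z := by
  choose g hg using hle
  let ρ : R₁ →+* R₂ :=
    { toFun := g
      map_one' := h2 (by rw [hg, map_one, map_one])
      map_zero' := h2 (by rw [hg, map_zero, map_zero])
      map_add' := fun a b => h2 (by rw [hg, map_add, map_add, hg, hg])
      map_mul' := fun a b => h2 (by rw [hg, map_mul, map_mul, hg, hg]) }
  have hρ : Function.Injective ρ := by
    intro a b hab
    apply h1
    rw [← hg, ← hg]
    exact congrArg _ hab
  obtain ⟨p, hp0, hp⟩ := h
  refine ⟨p.map ρ, (Polynomial.map_ne_zero_iff hρ).mpr hp0, ?_⟩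
  rw [Polynomial.aeval_def, Polynomial.eval₂_map]
  have h4 : (algebraMap R₂ K).comp ρ = algebraMap R₁ K := by
    ext c
    exact hg c
  rw [h4]
  exact hp

variable {k : Type u} {K : Type v} [Field k] [Field K] [Algebra k K]

/-- the pair `a, b` as a family -/
def fam (a b : K) : Option Unit → K := fun o => o.elim b fun _ => a

theorem fam_iff (N : IntermediateField k K) {a b : K} (ha : Transcendental N a) :
    AlgebraicIndependent N (fam a b) ↔ b ∉ cl k (insert a (N : Set K)) := by
  have h1 : AlgebraicIndependent N (fun _ : Unit => a) :=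
    algebraicIndependent_unique_type_iff.mpr ha
  have h2 := h1.option_iff_transcendental b
  change AlgebraicIndependent N (fam a b) ↔ _ at h2
  rw [h2]
  apply not_congr
  have hr : Set.range (fun _ : Unit => a) = {a} := Set.range_const
  rw [hr, mem_cl_iff]
  constructor
  · intro h
    refine isAlg_mono Subtype.val_injective Subtype.val_injective (fun r => ?_) h
    have h3 : ∀ z ∈ Algebra.adjoin N {a}, z ∈ IntermediateField.adjoin k (insert a (N : Set K)) := by
      intro z hz
      induction hz using Algebra.adjoin_induction with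
      | mem z hz =>
        rw [Set.mem_singleton_iff] at hz
        rw [hz]
        exact IntermediateField.subset_adjoin _ _ (Set.mem_insert _ _)
      | algebraMap c => exact IntermediateField.subset_adjoin _ _ (Set.mem_insert_of_mem _ c.2)
      | add x y _ _ hx hy => exact add_mem hx hy
      | mul x y _ _ hx hy => exact mul_mem hx hy
    exact ⟨⟨r, h3 r r.2⟩, rfl⟩
  · intro h
    have h4 : IsAlgebraic (IntermediateField.adjoin N {a}) b := by
      refine isAlg_mono Subtype.val_injective Subtype.val_injective (fun r => ?_) h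
      have h3 : IntermediateField.adjoin k (insert a (N : Set K)) ≤
          (IntermediateField.adjoin N {a}).restrictScalars k := by
        rw [IntermediateField.adjoin_le_iff]
        rintro z (rfl | hz)
        · exact IntermediateField.mem_adjoin_simple_self N z
        · exact IntermediateField.algebraMap_mem (IntermediateField.adjoin N {a}) ⟨z, hz⟩
      exact ⟨⟨r, h3 r.2⟩, rfl⟩
    rwa [IntermediateField.isAlgebraic_adjoin_iff] at h4

/-- `T a` is algebraic over `a` and the constants in `M` -/
theorem mem_cl_pair {M L : IntermediateField k K} (T : K →ₐ[k] K) (hM : ∀ z ∈ M, T z ∈ M)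
    (hL : ∀ z ∈ L, T z = z) (hfix : ∀ z, T z = z → z ∈ L) {a b : K} (ha : a ∈ M) (hb : b ∈ M)
    (haL : Transcendental L a) (hab : b ∈ cl k (insert a (L : Set K))) :
    b ∈ cl k (insert a ((M ⊓ L : IntermediateField k K) : Set K)) := by
  classical
  by_contra hcon
  have haN : Transcendental (M ⊓ L : IntermediateField k K) a := by
    intro h
    apply haL
    exact isAlg_mono (R₁ := (M ⊓ L : IntermediateField k K)) (R₂ := L) Subtype.val_injective
      Subtype.val_injective (fun r => ⟨⟨r, r.2.2⟩, rfl⟩) h
  have h1 := (fam_iff (M ⊓ L) haN).mpr hcon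
  have h2 : ¬ AlgebraicIndependent L (fam a b) := fun h => (fam_iff L haL).mp h hab
  rw [algebraicIndependent_iff] at h2
  push Not at h2
  obtain ⟨P, hP, hP0⟩ := h2
  -- the relation
  let g : P.support → K := fun m => MvPolynomial.aeval (fam a b) (MvPolynomial.monomial (m : Option Unit →₀ ℕ) (1 : k))
  have hg : ∀ m, g m ∈ M := by
    intro m
    have h3 : ∀ p : MvPolynomial (Option Unit) k, MvPolynomial.aeval (fam a b) p ∈ M := by
      intro p
      induction p using MvPolynomial.induction_on with
      | C c => rw [MvPolynomial.aeval_C]; exact M.algebraMap_mem c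
      | add p q hp hq => rw [map_add]; exact add_mem hp hq
      | mul_X p i hp =>
        rw [map_mul, MvPolynomial.aeval_X]
        refine mul_mem hp ?_
        cases i with
        | none => exact hb
        | some i => exact ha
    exact h3 _
  have hmon : ∀ (F : Type v) [Field F] [Algebra F K] (m : Option Unit →₀ ℕ) (c : F),
      MvPolynomial.aeval (fam a b) (MvPolynomial.monomial m c) =
        algebraMap F K c * MvPolynomial.aeval (fam a b) (MvPolynomial.monomial m (1 : k)) := by
    intro F _ _ m c
    rw [MvPolynomial.aeval_monomial, MvPolynomial.aeval_monomial, map_one, one_mul]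
  obtain ⟨c', h3, ⟨i, h4⟩, h5⟩ := lin_disj T hM hL hfix g hg
    (fun m => ((P.coeff m : L) : K)) (fun m => (P.coeff m : L).2) (by
      obtain ⟨m, hm⟩ := MvPolynomial.support_nonempty.mpr hP0
      refine ⟨⟨m, hm⟩, fun h0 => ?_⟩
      rw [MvPolynomial.mem_support_iff] at hm
      apply hm
      exact_mod_cast h0) (by
      rw [P.as_sum, map_sum] at hP
      rw [← hP, ← Finset.sum_coe_sort P.support (fun m => (MvPolynomial.aeval (fam a b))
        (MvPolynomial.monomial m (P.coeff m)))]
      refine Finset.sum_congr rfl fun m _ => ?_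
      rw [hmon L m (P.coeff m)]
      rfl)
  -- the new polynomial
  let P' : MvPolynomial (Option Unit) (M ⊓ L : IntermediateField k K) :=
    ∑ m : P.support, MvPolynomial.monomial (m : Option Unit →₀ ℕ)
      (⟨c' m, h3 m⟩ : (M ⊓ L : IntermediateField k K))
  have h6 : MvPolynomial.aeval (fam a b) P' = 0 := by
    rw [map_sum, ← h5]
    refine Finset.sum_congr rfl fun m _ => ?_
    rw [hmon (M ⊓ L : IntermediateField k K)]
    rfl
  have h7 := h1.eq_zero_of_aeval_eq_zero _ h6
  have h8 : P'.coeff i = ⟨c' i, h3 i⟩ := by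
    rw [MvPolynomial.coeff_sum, Finset.sum_eq_single i]
    · rw [MvPolynomial.coeff_monomial, if_pos rfl]
    · intro m _ hm
      rw [MvPolynomial.coeff_monomial, if_neg (fun h => hm (Subtype.ext h))]
    · intro h
      exact absurd (Finset.mem_univ i) h
  rw [h7, MvPolynomial.coeff_zero] at h8
  exact h4 (congrArg Subtype.val h8).symm

/-- an endomorphism of `K` over `L` of infinite order, with an eigenvector among the derivations -/
structure SelfMap (L : IntermediateField k K) (t : K) (T : K →ₐ[k] K) (d : Derivation k K K)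
    (μ : ℤ) : Prop where
  fixes : ∀ z ∈ L, T z = z
  closed : ∀ z, z ∈ cl k (L : Set K) → z ∈ L
  gen : ∀ z, z ∈ cl k (insert t (L : Set K))
  kills : ∀ z ∈ L, d z = 0
  ne : d t ≠ 0
  big : 2 ≤ |μ|
  eigen : ∀ z, d (T z) = μ * T (d z)

variable {L : IntermediateField k K} {t : K} {T : K →ₐ[k] K} {d : Derivation k K K} {μ : ℤ}

theorem SelfMap.gen' (h : SelfMap L t T d μ) {z : K} (hz : z ∉ L) (y : K) :
    y ∈ cl k (insert z (L : Set K)) := by
  have h1 : t ∈ cl k (insert z (L : Set K)) :=
    cl_exch (h.gen z) (fun h2 => hz (h.closed z h2))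
  refine cl_sub ?_ (h.gen y)
  rintro x (rfl | hx)
  · exact h1
  · exact subset_cl _ (Set.mem_insert_of_mem _ hx)

theorem SelfMap.fix [CharZero K] (h : SelfMap L t T d μ) {z : K} (hz : T z = z) : z ∈ L := by
  by_contra hzL
  have h1 : d z ≠ 0 := by
    intro h0
    apply h.ne
    refine der_cl d (S := insert z (L : Set K)) ?_ (h.gen' hzL t)
    rintro y (rfl | hy)
    · exact h0
    · exact h.kills y hy
  refine no_mult (N := IntermediateField.adjoin k (insert z (L : Set K))) T ?_ h.big h1 ?_
    (mem_cl_iff.mp (h.gen' hzL (d z)))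
  · intro y hy
    induction hy using IntermediateField.adjoin_induction with
    | mem y hy =>
      rcases hy with rfl | hy
      · exact hz
      · exact h.fixes y hy
    | algebraMap c => exact T.commutes c
    | add x y _ _ hx hy => rw [map_add, hx, hy]
    | inv y _ hy => rw [map_inv₀, hy]
    | mul x y _ _ hx hy => rw [map_mul, hx, hy]
  · conv_lhs => rw [← hz]
    exact h.eigen z

/-- The commuting derivation. -/
theorem SelfMap.comm [CharZero K] (h : SelfMap L t T d μ) {M : IntermediateField k K}
    (hMc : ∀ z, z ∈ cl k (M : Set K) → z ∈ M) (hMT : ∀ z ∈ M, T z ∈ M) {a : K} (haM : a ∈ M)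
    (haL : a ∉ L) {j : K} (hjL : j ∈ L) (hjM : j ∉ M) :
    ∃ D : Derivation k K K, (∀ z ∈ L, D z ∈ L) ∧ D j ≠ 0 ∧
      ∃ c ∈ L, ∀ z, D (d z) - d (D z) = c * d z := by
  have hjN : ¬ IsAlgebraic (M ⊓ L : IntermediateField k K) j := by
    intro h1
    apply hjM
    apply hMc
    rw [mem_cl_iff]
    refine isAlg_mono Subtype.val_injective Subtype.val_injective (fun r => ?_) h1
    exact ⟨⟨r, IntermediateField.subset_adjoin _ _ r.2.1⟩, rfl⟩
  obtain ⟨D, hD1, hDa, hDj, hDL⟩ := exists_der_pres (M := M ⊓ L) (L := L) inf_le_right hjL hjN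
    (a := a) (fun h1 => haL (h.closed a h1))
  have haLt : Transcendental L a := by
    intro h1
    apply haL
    apply h.closed
    rw [mem_cl_iff]
    refine isAlg_mono Subtype.val_injective Subtype.val_injective (fun r => ?_) h1
    exact ⟨⟨r, IntermediateField.subset_adjoin _ _ r.2⟩, rfl⟩
  have hTa := mem_cl_pair T hMT h.fixes (fun z hz => h.fix hz) haM (hMT a haM) haLt
    (h.gen' haL (T a))
  have hDTa : D (T a) = 0 := by
    refine der_cl D (S := insert a ((M ⊓ L : IntermediateField k K) : Set K)) ?_ hTa
    rintro y (rfl | hy)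
    · exact hDa
    · exact hD1 y hy
  have hcomm : ∀ z, D (T z) = T (D z) := by
    intro z
    have h1 : TDer (T : K →+* K) (fun z => D (T z) - T (D z)) :=
      (TDer.comp_left (T := (T : K →+* K)) D).sub (TDer.comp_right (T := (T : K →+* K)) D)
    have h2 := h1.cl (k := k) (S := insert a (L : Set K)) (fun c => by
      rw [T.commutes, D.map_algebraMap, map_zero, sub_zero]) (by
      rintro y (rfl | hy)
      · rw [hDTa, hDa, map_zero, sub_zero]
      · rw [h.fixes y hy, h.fixes _ (hDL y hy), sub_self]) (h.gen' haL z)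
    exact sub_eq_zero.mp h2
  refine ⟨D, hDL, hDj, ?_⟩
  have hE : ∀ z ∈ L, ⁅D, d⁆ z = 0 := by
    intro z hz
    rw [Derivation.commutator_apply, h.kills z hz, map_zero, h.kills _ (hDL z hz), sub_zero]
  obtain ⟨c, hc⟩ : ∃ c, c = ⁅D, d⁆ t / d t := ⟨_, rfl⟩
  have hmul : ∀ z, ⁅D, d⁆ z = c * d z := by
    intro z
    rw [hc]
    exact der_mult h.gen d ⁅D, d⁆ h.kills hE h.ne z
  have hTc : T c = c := by
    have h1 : ⁅D, d⁆ (T t) = μ * T (⁅D, d⁆ t) := by
      rw [Derivation.commutator_apply, Derivation.commutator_apply, h.eigen, hcomm, h.eigen,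
        Derivation.leibniz, hcomm, smul_eq_mul, smul_eq_mul, map_sub]
      have : D (μ : K) = 0 := by exact_mod_cast D.map_intCast μ
      rw [this]
      ring
    rw [hmul, hmul, h.eigen, map_mul] at h1
    have h2 : (μ : K) ≠ 0 := by
      have : μ ≠ 0 := by
        rintro rfl
        have := h.big
        norm_num at this
      exact_mod_cast this
    have h3 : T (d t) ≠ 0 := (map_ne_zero T).mpr h.ne
    have h4 : (μ : K) * T (d t) * (T c - c) = 0 := by linear_combination -h1
    exact sub_eq_zero.mp ((mul_eq_zero.mp h4).resolve_left (mul_ne_zero h2 h3))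
  refine ⟨c, h.fix hTc, fun z => ?_⟩
  rw [← hmul, Derivation.commutator_apply]

end Pool.Agent.R867.J
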