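import Pool.Agent.R867.J.Quart
import Pool.Agent.R867.Mov.Move

/-! Moving along a conic fibration. -/

set_option autoImplicit false

namespace Pool.Agent.R867.J

open Polynomial Pool.Agent.R867.Mov

universe u v w'

section gen

variable {F : Type u} {E : Type v} [Field F] [Field E] [Algebra F E]

theorem g_ne {t : E} (ht : Transcendental F t) {P : F[X]} (hP : P ≠ 0) : aeval t P ≠ 0 :=
  fun h0 => hP (transcendental_iff.1 ht P h0)

theorem g_inj {t : E} (ht : Transcendental F t) {P P' : F[X]} (h : aeval t P = aeval t P') :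
    P = P' := by
  rw [← sub_eq_zero]
  apply transcendental_iff.1 ht
  rw [map_sub, h, sub_self]

theorem g_frac {t : E} (ht : Transcendental F t) {x : E}
    (hx : x ∈ IntermediateField.adjoin F {t}) :
    ∃ A B : F[X], IsCoprime A B ∧ B ≠ 0 ∧ x = aeval t A / aeval t B := by
  classical
  obtain ⟨r, s, rfl⟩ := (IntermediateField.mem_adjoin_simple_iff F x).mp hx
  by_cases hs : s = 0
  · refine ⟨0, 1, isCoprime_one_right, one_ne_zero, ?_⟩
    rw [hs, map_zero, div_zero, zero_div]
  · have hg : EuclideanDomain.gcd r s ≠ 0 := fun h => hs (EuclideanDomain.gcd_eq_zero_iff.mp h).2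
    obtain ⟨A, hA⟩ := EuclideanDomain.gcd_dvd_left r s
    obtain ⟨B, hB⟩ := EuclideanDomain.gcd_dvd_right r s
    refine ⟨A, B, ?_, ?_, ?_⟩
    · have h1 := EuclideanDomain.gcd_eq_gcd_ab r s
      refine ⟨EuclideanDomain.gcdA r s, EuclideanDomain.gcdB r s, ?_⟩
      apply mul_left_cancel₀ hg
      rw [mul_one]
      conv_rhs => rw [h1]
      conv_rhs => enter [1, 1]; rw [hA]
      conv_rhs => enter [2, 1]; rw [hB]
      ring
    · rintro rfl
      rw [mul_zero] at hB
      exact hs hB
    · have h1 : aeval t r = aeval t (EuclideanDomain.gcd r s) * aeval t A := by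
        rw [← map_mul, ← hA]
      have h2 : aeval t s = aeval t (EuclideanDomain.gcd r s) * aeval t B := by
        rw [← map_mul, ← hB]
      rw [h1, h2, mul_div_mul_left _ _ (g_ne ht hg)]

theorem g_mem (t : E) (P : F[X]) : aeval t P ∈ IntermediateField.adjoin F {t} :=
  (IntermediateField.mem_adjoin_simple_iff F _).mpr ⟨P, 1, by rw [map_one, div_one]⟩

theorem g_not {t w : E} {Q : F[X]} (ht : Transcendental F t) (hw : w ^ 2 = aeval t Q)
    (hQ : Q.Separable) (h1 : 1 ≤ Q.natDegree) : w ∉ IntermediateField.adjoin F {t} := by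
  intro hmem
  obtain ⟨A, B, hAB, hB, hwAB⟩ := g_frac ht hmem
  have hB' := g_ne ht hB
  have h1 : Q * B ^ 2 = A ^ 2 := by
    apply g_inj ht
    rw [map_mul, map_pow, map_pow, ← hw, hwAB, div_pow, div_mul_cancel₀ _ (pow_ne_zero 2 hB')]
  have h2 : B ∣ A ^ 2 := ⟨Q * B, by rw [← h1]; ring⟩
  have h4 : IsUnit B := by
    have h5 : IsCoprime (A ^ 2) B := hAB.pow_left
    exact h5.isUnit_of_dvd' h2 dvd_rfl
  obtain ⟨b, hb, rfl⟩ := Polynomial.isUnit_iff.mp h4
  have h6 : Q = (A * C b⁻¹) * (A * C b⁻¹) := by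
    have h7 : C b * C b⁻¹ = (1 : F[X]) := by
      rw [← C_mul, mul_inv_cancel₀ hb.ne_zero, C_1]
    calc Q = Q * (C b) ^ 2 * (C b⁻¹) ^ 2 := by
          rw [mul_assoc, ← mul_pow, h7, one_pow, mul_one]
      _ = (A * C b⁻¹) * (A * C b⁻¹) := by rw [h1]; ring
  have h8 := hQ.squarefree (A * C b⁻¹) (by conv_rhs => rw [h6])
  have h9 : Q.natDegree = 0 := by
    rw [h6]
    exact natDegree_eq_zero_of_isUnit (h8.mul h8)
  omega

/-- evaluation of polynomials in two variables -/
noncomputable def evE (F : Type u) {E : Type v} [Field F] [Field E] [Algebra F E] (t w : E) :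
    Polynomial F[X] →ₐ[F] E :=
  { toRingHom := Polynomial.eval₂RingHom (aeval t : F[X] →ₐ[F] E).toRingHom w
    commutes' := fun a => by
      change Polynomial.eval₂ (aeval t : F[X] →ₐ[F] E).toRingHom w (C (C a)) = _
      rw [Polynomial.eval₂_C]
      exact aeval_C t a }

theorem evE_C (t w : E) (p : F[X]) : evE F t w (C p) = aeval t p := by
  change Polynomial.eval₂ (aeval t : F[X] →ₐ[F] E).toRingHom w (C p) = _
  rw [Polynomial.eval₂_C]
  rfl

theorem evE_X (t w : E) : evE F t w X = w := by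
  change Polynomial.eval₂ (aeval t : F[X] →ₐ[F] E).toRingHom w X = _
  rw [Polynomial.eval₂_X]

theorem ker_evE {t w : E} {Q : F[X]} (ht : Transcendental F t) (hw : w ^ 2 = aeval t Q)
    (hnot : w ∉ IntermediateField.adjoin F {t}) (P : Polynomial F[X]) :
    evE F t w P = 0 ↔ (X ^ 2 - C Q) ∣ P := by
  have hmon : (X ^ 2 - C Q : Polynomial F[X]).Monic := monic_X_pow_sub_C Q two_ne_zero
  have hroot : evE F t w (X ^ 2 - C Q) = 0 := by
    rw [map_sub, map_pow, evE_X, evE_C, hw, sub_self]
  constructor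
  · intro h0
    rw [← modByMonic_eq_zero_iff_dvd hmon]
    have h1 := modByMonic_add_div P (X ^ 2 - C Q : Polynomial F[X])
    have h2 : (P %ₘ (X ^ 2 - C Q)).natDegree ≤ 1 := by
      have h3 := natDegree_modByMonic_lt P hmon (by
        intro h4
        have h5 : (X ^ 2 - C Q : Polynomial F[X]).natDegree = 2 := natDegree_X_pow_sub_C
        rw [h4, natDegree_one] at h5
        omega)
      rw [natDegree_X_pow_sub_C] at h3
      omega
    obtain ⟨A, B, hAB⟩ : ∃ A B : F[X], P %ₘ (X ^ 2 - C Q) = C A * X + C B :=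
      exists_eq_X_add_C_of_natDegree_le_one h2
    have h3 : aeval t A * w + aeval t B = 0 := by
      have h4 := congrArg (evE F t w) h1
      rw [h0, map_add, map_mul, hroot, zero_mul, add_zero, hAB, map_add, map_mul, evE_C, evE_C,
        evE_X] at h4
      exact h4
    have hA : A = 0 := by
      by_contra hA
      apply hnot
      have h5 : w = - aeval t B / aeval t A := by
        rw [eq_div_iff (g_ne ht hA)]
        linear_combination h3
      rw [h5]
      exact div_mem (neg_mem (g_mem t B)) (g_mem t A)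
    have hB : B = 0 := by
      by_contra hB
      rw [hA, map_zero, zero_mul, zero_add] at h3
      exact g_ne ht hB h3
    rw [hAB, hA, hB, C_0, zero_mul, add_zero]
  · rintro ⟨R, rfl⟩
    rw [map_mul, hroot, zero_mul]

end gen

variable {k : Type u} {K : Type v} [Field k] [Field K] [Algebra k K]
variable {L : IntermediateField k K} {t w : K} {Q : L[X]}

theorem DoubleLine.gen_cl (h : DoubleLine L t w Q) (h4 : Q.natDegree ≤ 4) (z : K) :
    z ∈ cl k (insert t (L : Set K)) := by
  obtain ⟨R, hR⟩ := cl_closed (k := k) (insert t (L : Set K))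
  have htR : t ∈ R := by
    have : t ∈ (R : Set K) := by
      rw [hR]
      exact subset_cl _ (Set.mem_insert _ _)
    exact this
  have hLR : ∀ z ∈ L, z ∈ R := by
    intro z hz
    have : z ∈ (R : Set K) := by
      rw [hR]
      exact subset_cl _ (Set.mem_insert_of_mem _ hz)
    exact this
  have hwR : w ∈ (R : Set K) := by
    rw [hR]
    have h5 : w ^ 2 ∈ (R : Set K) := by
      rw [h.eq, aeval_quartic h4]
      exact add_mem (add_mem (add_mem (add_mem (mul_mem (hLR _ (Q.coeff 4).2) (pow_mem htR 4))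
        (mul_mem (hLR _ (Q.coeff 3).2) (pow_mem htR 3))) (mul_mem (hLR _ (Q.coeff 2).2)
        (pow_mem htR 2))) (mul_mem (hLR _ (Q.coeff 1).2) htR)) (hLR _ (Q.coeff 0).2)
    rw [hR] at h5
    exact IsAlgebraic.of_pow two_pos h5
  have hz : z ∈ IntermediateField.adjoin L {t, w} := by rw [h.gen]; trivial
  have hzR : z ∈ R := by
    induction hz using IntermediateField.adjoin_induction with
    | mem z hz =>
      rcases hz with rfl | hz
      · exact htR
      · rw [Set.mem_singleton_iff] at hz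
        rw [hz]
        exact hwR
    | algebraMap c => exact hLR _ c.2
    | add x y _ _ hx hy => exact add_mem hx hy
    | inv x _ hx => exact inv_mem hx
    | mul x y _ _ hx hy => exact mul_mem hx hy
  rw [← hR]
  exact hzR

/-- homomorphisms from the function field of `w² = Q(t)` to another field -/
theorem DoubleLine.hom_to (h : DoubleLine L t w Q) (hQ : Q.Separable) (h1 : 1 ≤ Q.natDegree)
    {Ω : Type w'} [Field Ω] [Algebra L Ω] {t' w' : Ω} (ht' : Transcendental L t')
    (hw' : w' ^ 2 = aeval t' Q) : ∃ T : K →ₐ[L] Ω, T t = t' ∧ T w = w' := by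
  have hnot := g_not h.transc h.eq hQ h1
  have hnot' := g_not ht' hw' hQ h1
  obtain ⟨T, hT⟩ := embedG (evE L t w) (evE L t' w') (fun p => by
    rw [ker_evE h.transc h.eq hnot, ker_evE ht' hw' hnot']) (by
    intro z
    obtain ⟨x, hx, y, hy, rfl⟩ := h.decomp hnot z
    obtain ⟨A, B, -, hB, rfl⟩ := g_frac h.transc hx
    obtain ⟨A', B', -, hB', rfl⟩ := g_frac h.transc hy
    have h1 := g_ne h.transc hB
    have h2 := g_ne h.transc hB'
    refine ⟨C (A * B') + C (A' * B) * X, C (B * B'), ?_, ?_⟩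
    · rw [evE_C, map_mul]
      exact mul_ne_zero h1 h2
    · have e1 : evE L t w (C (B * B')) = aeval t B * aeval t B' := by rw [evE_C, map_mul]
      have e2 : evE L t w (C (A * B') + C (A' * B) * X) =
          aeval t A * aeval t B' + aeval t A' * aeval t B * w := by
        rw [map_add (evE L t w), map_mul (evE L t w) (C (A' * B)), evE_C, evE_C, evE_X, map_mul,
          map_mul]
      rw [e1, e2]
      field_simp)
  refine ⟨T, ?_, ?_⟩
  · have := hT (C X)
    rwa [evE_C, evE_C, aeval_X, aeval_X] at this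
  · have := hT X
    rwa [evE_X, evE_X] at this

/-- moving along a conic -/
theorem conic_hom [CharZero K] (h : DoubleLine L t w Q) (hQ : Q.Separable)
    (h1 : 1 ≤ Q.natDegree) (h2 : Q.natDegree ≤ 2) {Ω : Type w'} [Field Ω] [Algebra K Ω]
    (hcl : ∀ z : Ω, IsAlgebraic K z → z ∈ Set.range (algebraMap K Ω)) {s : Ω}
    (hs : ¬ IsAlgebraic K s) : ∃ T : K →ₐ[L] Ω, T t ∉ Set.range (algebraMap K Ω) := by
  have hw0 : w ≠ 0 := by
    rintro rfl
    exact g_not h.transc h.eq hQ h1 (zero_mem _)
  have h4 : Q.natDegree ≤ 4 := h2.trans (by norm_num)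
  have c4 : Q.coeff 4 = 0 := coeff_eq_zero_of_natDegree_lt (by omega)
  have c3 : Q.coeff 3 = 0 := coeff_eq_zero_of_natDegree_lt (by omega)
  obtain ⟨A, hA⟩ : ∃ A, algebraMap L K (Q.coeff 2) = A := ⟨_, rfl⟩
  obtain ⟨B, hB⟩ : ∃ B, aeval t (derivative Q) = B := ⟨_, rfl⟩
  obtain ⟨a, ha⟩ : ∃ a, algebraMap K Ω A = a := ⟨_, rfl⟩
  obtain ⟨b, hb⟩ : ∃ b, algebraMap K Ω B = b := ⟨_, rfl⟩
  obtain ⟨v, hv⟩ : ∃ v, algebraMap K Ω w = v := ⟨_, rfl⟩
  obtain ⟨τ, hτ⟩ : ∃ τ, algebraMap K Ω t = τ := ⟨_, rfl⟩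
  have hden : s ^ 2 - a ≠ 0 := by
    intro h0
    have := (poly_abs hs 1 0 (-A) (by
      rw [map_one, map_zero, map_neg, ha]; linear_combination h0)).1
    exact one_ne_zero this
  obtain ⟨l, hl⟩ : ∃ l, l = (b - 2 * v * s) / (s ^ 2 - a) := ⟨_, rfl⟩
  have hl' : l * (s ^ 2 - a) = b - 2 * v * s := by
    rw [hl]
    exact div_mul_cancel₀ _ hden
  have hnot : l ∉ Set.range (algebraMap K Ω) := by
    rintro ⟨y, rfl⟩
    have h3 := (poly_abs hs y (2 * w) (-y * A - B) (by
      rw [map_sub, map_mul, map_mul, map_neg, map_ofNat, ha, hb, hv]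
      linear_combination hl')).2
    exact hw0 ((mul_eq_zero.mp h3).resolve_left two_ne_zero)
  have hnot' : τ + l ∉ Set.range (algebraMap K Ω) := by
    rintro ⟨y, hy⟩
    apply hnot
    exact ⟨y - t, by rw [map_sub, hy, hτ, add_sub_cancel_left]⟩
  have htr : Transcendental L (τ + l) := by
    intro halg
    apply hnot'
    apply hcl
    exact halg.extendScalars (algebraMap L K).injective
  have hcoef : ∀ i, algebraMap L Ω (Q.coeff i) = algebraMap K Ω (algebraMap L K (Q.coeff i)) :=
    fun i => IsScalarTower.algebraMap_apply L K Ω _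
  have hQt : ∀ y : Ω, aeval y Q = a * y ^ 2 + algebraMap K Ω (algebraMap L K (Q.coeff 1)) * y +
      algebraMap K Ω (algebraMap L K (Q.coeff 0)) := by
    intro y
    have h5 := congrArg (aeval y) (quadratic_eq h2)
    rw [h5]
    simp only [map_add, map_mul, map_pow, aeval_C, aeval_X, hcoef, hA, ha]
  have hvv : v ^ 2 = a * τ ^ 2 + algebraMap K Ω (algebraMap L K (Q.coeff 1)) * τ +
      algebraMap K Ω (algebraMap L K (Q.coeff 0)) := by
    have h5 := congrArg (algebraMap K Ω) h.eq
    rw [aeval_quartic h4, c4, c3, hA] at h5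
    simp only [map_zero, zero_mul, zero_add, map_add, map_mul, map_pow, ha, hv, hτ] at h5
    exact h5
  have hbb : b = 2 * a * τ + algebraMap K Ω (algebraMap L K (Q.coeff 1)) := by
    rw [← hb, ← hB, aeval_dquartic h4, c4, c3, hA]
    simp only [map_zero, zero_mul, mul_zero, zero_add, map_add, map_mul, map_ofNat, ha, hτ]
  obtain ⟨T, hT1, -⟩ := h.hom_to hQ h1 htr (w' := v + s * l) (by
    rw [hQt]
    linear_combination hvv + l * hl' + l * hbb)
  exact ⟨T, by rw [hT1]; exact hnot'⟩

end Pool.Agent.R867.J
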