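import Pool.Agent.R867.Mov.Alg
import Pool.Agent.H135R2.VS.Der

/-! Derivations along endomorphisms; derivations which preserve a field. -/

set_option autoImplicit false

namespace Pool.Agent.R867.J

open Polynomial Pool.Agent.R867.Mov

universe u v

section TDer

variable {K : Type v} [Field K]

/-- derivations along an endomorphism -/
structure TDer (T : K →+* K) (G : K → K) : Prop where
  add : ∀ x y, G (x + y) = G x + G y
  mul : ∀ x y, G (x * y) = G x * T y + T x * G y

variable {T : K →+* K} {G : K → K}

theorem TDer.zero (h : TDer T G) : G 0 = 0 := by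
  have := h.add 0 0
  rw [add_zero] at this
  linear_combination -this

theorem TDer.one (h : TDer T G) : G 1 = 0 := by
  have := h.mul 1 1
  rw [mul_one, map_one] at this
  linear_combination -this

theorem TDer.inv (h : TDer T G) {x : K} (hx : G x = 0) : G x⁻¹ = 0 := by
  by_cases h0 : x = 0
  · rw [h0, inv_zero, h.zero]
  · have h1 := h.mul x x⁻¹
    rw [mul_inv_cancel₀ h0, h.one, hx, zero_mul, zero_add] at h1
    have h2 : T x ≠ 0 := (map_ne_zero T).mpr h0
    exact (mul_eq_zero.mp h1.symm).resolve_left h2

theorem TDer.pow (h : TDer T G) (x : K) (n : ℕ) : G (x ^ (n + 1)) = (n + 1) * T x ^ n * G x := by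
  induction n with
  | zero => rw [zero_add, pow_one]; push_cast; ring
  | succ n ih =>
    rw [_root_.pow_succ, h.mul, ih, map_pow]
    push_cast
    ring

theorem TDer.sub {G' : K → K} (h : TDer T G) (h' : TDer T G') :
    TDer T (fun z => G z - G' z) where
  add x y := by rw [h.add, h'.add]; ring
  mul x y := by rw [h.mul, h'.mul]; ring

theorem TDer.smul (c : K) (h : TDer T G) : TDer T (fun z => c * G z) where
  add x y := by rw [h.add]; ring
  mul x y := by rw [h.mul]; ring

variable {k : Type u} [Field k] [Algebra k K]

theorem TDer.comp_left (D : Derivation k K K) : TDer T (fun z => D (T z)) where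
  add x y := by rw [map_add, map_add]
  mul x y := by
    rw [map_mul, Derivation.leibniz, smul_eq_mul, smul_eq_mul]
    ring

theorem TDer.comp_right (D : Derivation k K K) : TDer T (fun z => T (D z)) where
  add x y := by rw [map_add, map_add]
  mul x y := by
    rw [Derivation.leibniz, smul_eq_mul, smul_eq_mul, map_add, map_mul, map_mul]
    ring

theorem TDer.aeval (h : TDer T G) {N : IntermediateField k K} (hN : ∀ z ∈ N, G z = 0) (p : N[X])
    (z : K) : G (Polynomial.aeval z p) = T (Polynomial.aeval z (derivative p)) * G z := by
  induction p using Polynomial.induction_on' with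
  | add p q hp hq => rw [map_add, h.add, hp, hq, map_add, map_add, map_add]; ring
  | monomial n a =>
    rw [aeval_monomial, derivative_monomial, aeval_monomial, h.mul]
    have h1 : G (algebraMap N K a) = 0 := hN _ a.2
    rw [h1, zero_mul, zero_add]
    cases n with
    | zero => rw [pow_zero, h.one]; simp
    | succ n =>
      rw [h.pow]
      simp only [map_mul, map_pow, map_natCast, Nat.add_sub_cancel]
      push_cast
      ring

theorem TDer.alg [CharZero K] (h : TDer T G) {N : IntermediateField k K} (hN : ∀ z ∈ N, G z = 0)
    {z : K} (hz : IsAlgebraic N z) : G z = 0 := by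
  have hi := hz.isIntegral
  have h1 := h.aeval hN (minpoly N z) z
  rw [minpoly.aeval, h.zero] at h1
  have h2 : Polynomial.aeval z (derivative (minpoly N z)) ≠ 0 :=
    (minpoly.irreducible hi).separable.aeval_derivative_ne_zero (minpoly.aeval N z)
  exact (mul_eq_zero.1 h1.symm).resolve_left ((map_ne_zero T).mpr h2)

theorem TDer.cl [CharZero K] (h : TDer T G) {S : Set K} (hk : ∀ c : k, G (algebraMap k K c) = 0)
    (hS : ∀ z ∈ S, G z = 0) {z : K} (hz : z ∈ cl k S) : G z = 0 := by
  rw [mem_cl_iff] at hz
  refine h.alg (N := IntermediateField.adjoin k S) (fun y hy => ?_) hz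
  induction hy using IntermediateField.adjoin_induction with
  | mem y hy => exact hS y hy
  | algebraMap c => exact hk c
  | add y z _ _ hy hz => rw [h.add, hy, hz, add_zero]
  | inv y _ hy => exact h.inv hy
  | mul y z _ _ hy hz => rw [h.mul, hy, hz, zero_mul, mul_zero, add_zero]

theorem TDer.id (D : Derivation k K K) : TDer (RingHom.id K) D where
  add x y := map_add D x y
  mul x y := by
    rw [Derivation.leibniz, smul_eq_mul, smul_eq_mul]
    simp only [RingHom.id_apply]
    ring

end TDer

variable {k : Type u} {K : Type v} [Field k] [Field K] [Algebra k K]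

/-- a derivation which vanishes on `S` vanishes on what is algebraic over `S` -/
theorem der_cl [CharZero K] (D : Derivation k K K) {S : Set K} (hS : ∀ z ∈ S, D z = 0) {z : K}
    (hz : z ∈ cl k S) : D z = 0 :=
  (TDer.id D).cl (fun c => D.map_algebraMap c) hS hz

/-- two derivations which vanish on a field of codimension one -/
theorem der_mult [CharZero K] {L : IntermediateField k K} {t : K}
    (hK : ∀ z, z ∈ cl k (insert t (L : Set K))) (D E : Derivation k K K)
    (hD : ∀ z ∈ L, D z = 0) (hE : ∀ z ∈ L, E z = 0) (hDt : D t ≠ 0) (z : K) :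
    E z = E t / D t * D z := by
  have h1 := der_cl (E - (E t / D t) • D) (S := insert t (L : Set K)) (by
    rintro y (rfl | hy)
    · rw [Derivation.sub_apply, Derivation.smul_apply, smul_eq_mul, div_mul_cancel₀ _ hDt, sub_self]
    · rw [Derivation.sub_apply, Derivation.smul_apply, smul_eq_mul, hD y hy, hE y hy, mul_zero,
        sub_self]) (hK z)
  rw [Derivation.sub_apply, Derivation.smul_apply, smul_eq_mul] at h1
  exact sub_eq_zero.mp h1

theorem der_mem [CharZero K] (D : Derivation k K K) {N L : IntermediateField k K} (hNL : N ≤ L)
    (hD : ∀ z ∈ N, D z ∈ L) {l : K} (hl : l ∈ L) (halg : IsAlgebraic N l) : D l ∈ L := by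
  have hi := halg.isIntegral
  have hsep : Polynomial.aeval l (derivative (minpoly N l)) ≠ 0 :=
    (minpoly.irreducible hi).separable.aeval_derivative_ne_zero (minpoly.aeval N l)
  have hmem : ∀ q : N[X], Polynomial.aeval l q ∈ L := by
    intro q
    induction q using Polynomial.induction_on' with
    | add p q hp hq => rw [map_add]; exact add_mem hp hq
    | monomial n a =>
      rw [aeval_monomial]
      exact mul_mem (hNL a.2) (pow_mem hl n)
  have key : ∀ q : N[X], ∃ r ∈ L, D (Polynomial.aeval l q) =
      r + Polynomial.aeval l (derivative q) * D l := by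
    intro q
    induction q using Polynomial.induction_on' with
    | add p q hp hq =>
      obtain ⟨r, hr, hr'⟩ := hp
      obtain ⟨s, hs, hs'⟩ := hq
      refine ⟨r + s, add_mem hr hs, ?_⟩
      rw [map_add, map_add, hr', hs', map_add, map_add]
      ring
    | monomial n a =>
      refine ⟨D (algebraMap N K a) * l ^ n, mul_mem (hD _ a.2) (pow_mem hl n), ?_⟩
      rw [aeval_monomial, Derivation.leibniz, Derivation.leibniz_pow,
        derivative_monomial, aeval_monomial]
      simp only [smul_eq_mul, nsmul_eq_mul, map_mul, map_natCast]
      ring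
  obtain ⟨r, hr, hr'⟩ := key (minpoly N l)
  rw [minpoly.aeval, map_zero] at hr'
  have h8 : D l = -r / Polynomial.aeval l (derivative (minpoly N l)) := by
    rw [eq_div_iff hsep]
    linear_combination (-1 : K) * hr'
  rw [h8]
  exact div_mem (neg_mem hr) (hmem _)

/-- derivations which preserve `L`, vanish on `M ≤ L` and on `a`, and not at `j` -/
theorem exists_der_pres [CharZero K] {M L : IntermediateField k K} (hML : M ≤ L) {j a : K}
    (hj : j ∈ L) (hjM : ¬ IsAlgebraic M j) (ha : a ∉ cl k (L : Set K)) :
    ∃ D : Derivation k K K, (∀ z ∈ M, D z = 0) ∧ D a = 0 ∧ D j ≠ 0 ∧ ∀ z ∈ L, D z ∈ L := by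
  classical
  have hcM : CharZero M := ⟨fun m n h => by
    have h1 := congrArg (algebraMap M K) h
    rw [map_natCast, map_natCast] at h1
    exact_mod_cast h1⟩
  let L' : IntermediateField M K := IntermediateField.extendScalars hML
  let j' : L' := ⟨j, hj⟩
  have hj' : Transcendental M j' := by
    intro h
    apply hjM
    exact (isAlgebraic_algebraMap_iff (algebraMap L' K).injective).mpr h
  have hs : AlgebraicIndepOn M id ({j'} : Set L') := by
    have := (algebraicIndependent_unique_type_iff (R := M) (A := L') (ι := ({j'} : Set L'))
      (x := fun i : ({j'} : Set L') => (i : L'))).2 (by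
        have h1 : ((default : ({j'} : Set L')) : L') = j' := rfl
        rw [h1]; exact hj')
    exact this
  obtain ⟨B, hjB, hB⟩ := exists_isTranscendenceBasis_superset hs
  have hjB' : j' ∈ B := hjB rfl
  let y : B → K := fun b => ((b : L') : K)
  have hy : AlgebraicIndependent M y :=
    AlgebraicIndependent.map' (f := IsScalarTower.toAlgHom M L' K) hB.1
      (algebraMap L' K).injective
  have hadj : Algebra.adjoin M (Set.range y) ≤ Subalgebra.restrictScalars M L'.toSubalgebra := by
    rw [Algebra.adjoin_le_iff]
    rintro _ ⟨b, rfl⟩
    exact b.1.2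
  have htr : Transcendental (Algebra.adjoin M (Set.range y)) a := by
    intro h
    apply ha
    rw [mem_cl_iff]
    have hle : ∀ z : Algebra.adjoin M (Set.range y), (z : K) ∈
        IntermediateField.adjoin k (L : Set K) :=
      fun z => IntermediateField.subset_adjoin _ _ (hadj z.2)
    obtain ⟨p, hp0, hp⟩ := h
    let ρ : Algebra.adjoin M (Set.range y) →+* IntermediateField.adjoin k (L : Set K) :=
      (algebraMap (Algebra.adjoin M (Set.range y)) K).codRestrict _ hle
    have hρ : Function.Injective ρ := by
      intro u v huv
      have h5 := congrArg Subtype.val huv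
      exact Subtype.ext h5
    refine ⟨p.map ρ, (Polynomial.map_ne_zero_iff hρ).mpr hp0, ?_⟩
    rw [Polynomial.aeval_def, Polynomial.eval₂_map]
    exact hp
  have hopt := (hy.option_iff_transcendental a).mpr htr
  obtain ⟨D, hD⟩ := Pool.Agent.H135R2.VS.exists_der hopt
    (fun o => if o = some ⟨j', hjB'⟩ then 1 else 0)
  have hDj : D j = 1 := by
    have := hD (some ⟨j', hjB'⟩)
    rw [if_pos rfl] at this
    exact this
  have hDa : D a = 0 := by
    have := hD none
    rw [if_neg (by simp)] at this
    exact this
  refine ⟨D.restrictScalars k, fun z hz => D.map_algebraMap (⟨z, hz⟩ : M), hDa, ?_, ?_⟩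
  · change D j ≠ 0
    rw [hDj]
    exact one_ne_zero
  · intro z hz
    change D z ∈ L
    let N : IntermediateField k K := (IntermediateField.adjoin M (Set.range y)).restrictScalars k
    have hNL : N ≤ L := by
      have h1 : IntermediateField.adjoin M (Set.range y) ≤ L' := by
        rw [IntermediateField.adjoin_le_iff]
        rintro _ ⟨b, rfl⟩
        exact b.1.2
      exact h1
    have hDN : ∀ z ∈ N, D z ∈ L := by
      intro z hz
      have hz' : z ∈ IntermediateField.adjoin M (Set.range y) := hz
      have h2 : z ∈ N ∧ D z ∈ L := by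
        clear hz
        induction hz' using IntermediateField.adjoin_induction with
        | mem z hz =>
          refine ⟨IntermediateField.subset_adjoin M _ hz, ?_⟩
          obtain ⟨b, rfl⟩ := hz
          have := hD (some b)
          have h3 : D (y b) = if (some b : Option B) = some ⟨j', hjB'⟩ then 1 else 0 := this
          rw [h3]
          split_ifs
          · exact one_mem _
          · exact zero_mem _
        | algebraMap c =>
          refine ⟨IntermediateField.algebraMap_mem _ c, ?_⟩
          rw [D.map_algebraMap]
          exact zero_mem _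
        | add u v hu' hv' hu hv =>
          refine ⟨add_mem hu.1 hv.1, ?_⟩
          rw [map_add]
          exact add_mem hu.2 hv.2
        | inv u hu' hu =>
          refine ⟨inv_mem hu.1, ?_⟩
          rw [Derivation.leibniz_inv, smul_eq_mul]
          exact mul_mem (neg_mem (pow_mem (inv_mem (hNL hu.1)) 2)) hu.2
        | mul u v hu' hv' hu hv =>
          refine ⟨mul_mem hu.1 hv.1, ?_⟩
          rw [Derivation.leibniz, smul_eq_mul, smul_eq_mul]
          exact add_mem (mul_mem (hNL hu.1) hv.2) (mul_mem (hNL hv.1) hu.2)
      exact h2.2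
    refine der_mem (D.restrictScalars k) hNL hDN hz ?_
    -- `z` is algebraic over `N`
    have h1 : IsAlgebraic (Algebra.adjoin M (Set.range fun b : B => (b : L'))) (⟨z, hz⟩ : L') :=
      hB.isAlgebraic.isAlgebraic _
    obtain ⟨p, hp0, hp⟩ := h1
    have hle : ∀ u : Algebra.adjoin M (Set.range fun b : B => (b : L')), ((u : L') : K) ∈ N := by
      intro u
      have h2 : Algebra.adjoin M (Set.range fun b : B => (b : L')) ≤
          (IntermediateField.adjoin M (Set.range y)).toSubalgebra.comap
            (IsScalarTower.toAlgHom M L' K) := by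
        rw [Algebra.adjoin_le_iff]
        rintro _ ⟨b, rfl⟩
        exact IntermediateField.subset_adjoin M _ ⟨b, rfl⟩
      exact h2 u.2
    let ρ : Algebra.adjoin M (Set.range fun b : B => (b : L')) →+* N :=
      ((algebraMap L' K).comp (algebraMap (Algebra.adjoin M (Set.range fun b : B => (b : L')))
        L')).codRestrict _ hle
    have hρ : Function.Injective ρ := by
      intro u v huv
      have h5 := congrArg Subtype.val huv
      exact Subtype.ext (Subtype.ext h5)
    refine ⟨p.map ρ, (Polynomial.map_ne_zero_iff hρ).mpr hp0, ?_⟩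
    rw [Polynomial.aeval_def, Polynomial.eval₂_map]
    have h3 := congrArg (algebraMap L' K) hp
    rw [map_zero, Polynomial.aeval_def, Polynomial.hom_eval₂] at h3
    exact h3

end Pool.Agent.R867.J
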