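import Pool.Agent.R867.J.Comm

/-! The infinitesimal deformations of a quartic which preserve the curve `w² = Q(t)`. -/

set_option autoImplicit false

namespace Pool.Agent.R867.J

open Polynomial

universe u v

section Poly

variable {F : Type u} [Field F] [CharZero F]

theorem not_dvd_derivative {π : F[X]} (hπ : Irreducible π) : ¬ π ∣ derivative π := by
  intro h
  have h1 : derivative π ≠ 0 := by
    intro h0
    have h4 : π.natDegree = 0 := Polynomial.derivative_eq_zero.1 h0
    have h5 := hπ.natDegree_pos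
    omega
  have h2 := natDegree_le_of_dvd h h1
  have h3 := natDegree_derivative_lt (p := π) (by have := hπ.natDegree_pos; omega)
  omega

theorem unit_of_eq {Q R A B : F[X]} (hQ : Q.Separable) (hB : B ≠ 0) (hAB : IsCoprime A B)
    (h : 2 * Q * (derivative A * B - A * derivative B) - derivative Q * A * B = R * B ^ 2) :
    IsUnit B := by
  by_contra hu
  obtain ⟨π, hπ, hπB⟩ := WfDvdMonoid.exists_irreducible_factor hu hB
  have hp : Prime π := hπ.prime
  have hfin : FiniteMultiplicity π B :=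
    FiniteMultiplicity.of_not_isUnit hπ.not_isUnit hB
  obtain ⟨B₁, hB₁, hnd⟩ := hfin.exists_eq_pow_mul_and_not_dvd
  obtain ⟨n, hn⟩ : ∃ n, multiplicity π B = n + 1 := by
    have h1 : multiplicity π B ≠ 0 := by
      intro h0
      rw [h0, pow_zero, one_mul] at hB₁
      rw [← hB₁] at hnd
      exact hnd hπB
    exact ⟨_, (Nat.succ_pred_eq_of_ne_zero h1).symm⟩
  rw [hn] at hB₁
  have hπA : ¬ π ∣ A := by
    intro hA
    exact hπ.not_isUnit (hAB.isUnit_of_dvd' hA hπB)
  have hder : derivative B = C ((n : F) + 1) * π ^ n * derivative π * B₁ +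
      π ^ (n + 1) * derivative B₁ := by
    rw [hB₁, derivative_mul, derivative_pow]
    simp
  have hπ0 : π ≠ 0 := hπ.ne_zero
  have h1 : C (2 * ((n : F) + 1)) * Q * A * derivative π * B₁ =
      π * (2 * Q * derivative A * B₁ - 2 * Q * A * derivative B₁ - derivative Q * A * B₁ -
        R * π ^ (n + 1) * B₁ ^ 2) := by
    apply mul_left_cancel₀ (pow_ne_zero n hπ0)
    rw [hder, hB₁] at h
    rw [C_mul, show (C (2 : F) : F[X]) = 2 by exact map_ofNat C 2]
    linear_combination -h
  have hC : ∀ c : F, c ≠ 0 → ¬ π ∣ C c := by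
    intro c hc hd
    exact hπ.not_isUnit (isUnit_of_dvd_unit hd (isUnit_C.mpr hc.isUnit))
  have hn0 : (2 * ((n : F) + 1)) ≠ 0 := by
    have : ((n : F) + 1) ≠ 0 := Nat.cast_add_one_ne_zero n
    exact mul_ne_zero two_ne_zero this
  have hπQ : π ∣ Q := by
    have h2 : π ∣ C (2 * ((n : F) + 1)) * Q * A * derivative π * B₁ := ⟨_, h1⟩
    rcases hp.dvd_or_dvd h2 with h3 | h3
    · rcases hp.dvd_or_dvd h3 with h3 | h3
      · rcases hp.dvd_or_dvd h3 with h3 | h3
        · rcases hp.dvd_or_dvd h3 with h3 | h3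
          · exact absurd h3 (hC _ hn0)
          · exact h3
        · exact absurd h3 hπA
      · exact absurd h3 (not_dvd_derivative hπ)
    · exact absurd h3 hnd
  obtain ⟨Q₁, hQ₁⟩ := hπQ
  have hndQ : ¬ π ∣ Q₁ := by
    intro h2
    have h3 := hQ.squarefree π (by
      rw [hQ₁]
      exact mul_dvd_mul_left π h2)
    exact hπ.not_isUnit h3
  have h4 : C (2 * (n : F) + 3) * Q₁ * A * derivative π * B₁ =
      π * (2 * Q₁ * derivative A * B₁ - 2 * Q₁ * A * derivative B₁ - derivative Q₁ * A * B₁ -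
        R * π ^ n * B₁ ^ 2) := by
    apply mul_left_cancel₀ hπ0
    rw [hQ₁, derivative_mul] at h1
    rw [C_add, C_mul, show (C (2 : F) : F[X]) = 2 by exact map_ofNat C 2,
      show (C (3 : F) : F[X]) = 3 by exact map_ofNat C 3]
    rw [C_mul, C_add, C_1, show (C (2 : F) : F[X]) = 2 by exact map_ofNat C 2] at h1
    linear_combination h1
  have hn1 : (2 * (n : F) + 3) ≠ 0 := by
    have : ((2 * n + 3 : ℕ) : F) ≠ 0 := Nat.cast_ne_zero.mpr (by omega)
    push_cast at this
    exact this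
  have h2 : π ∣ C (2 * (n : F) + 3) * Q₁ * A * derivative π * B₁ := ⟨_, h4⟩
  rcases hp.dvd_or_dvd h2 with h3 | h3
  · rcases hp.dvd_or_dvd h3 with h3 | h3
    · rcases hp.dvd_or_dvd h3 with h3 | h3
      · rcases hp.dvd_or_dvd h3 with h3 | h3
        · exact absurd h3 (hC _ hn1)
        · exact absurd h3 hndQ
      · exact absurd h3 hπA
    · exact absurd h3 (not_dvd_derivative hπ)
  · exact absurd h3 hnd

theorem degree_le_two {Q R A : F[X]} (h3 : 3 ≤ Q.natDegree) (h4 : Q.natDegree ≤ 4)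
    (hR : R.natDegree ≤ 4) (h : 2 * Q * derivative A - derivative Q * A = R) :
    A.natDegree ≤ 2 := by
  by_contra hA
  push Not at hA
  obtain ⟨m, hm⟩ : ∃ m, A.natDegree = m + 1 := ⟨A.natDegree - 1, by omega⟩
  obtain ⟨d, hd⟩ : ∃ d, Q.natDegree = d + 1 := ⟨Q.natDegree - 1, by omega⟩
  have hA0 : A.coeff (m + 1) ≠ 0 := by
    rw [← hm]
    exact leadingCoeff_ne_zero.mpr (by rintro rfl; simp at hm)
  have hQ0 : Q.coeff (d + 1) ≠ 0 := by
    rw [← hd]
    exact leadingCoeff_ne_zero.mpr (by rintro rfl; simp at hd)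
  have h1 : (Q * derivative A).coeff ((d + 1) + m) = Q.coeff (d + 1) * (derivative A).coeff m :=
    coeff_mul_add_eq_of_natDegree_le hd.le ((natDegree_derivative_le A).trans (by omega))
  have h2 : (derivative Q * A).coeff (d + (m + 1)) = (derivative Q).coeff d * A.coeff (m + 1) :=
    coeff_mul_add_eq_of_natDegree_le ((natDegree_derivative_le Q).trans (by omega)) hm.le
  have h5 := congrArg (fun p => coeff p ((d + 1) + m)) h
  have h6 : R.coeff ((d + 1) + m) = 0 := coeff_eq_zero_of_natDegree_lt (by omega)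
  have h7 : (2 * Q * derivative A).coeff ((d + 1) + m) =
      2 * (Q * derivative A).coeff ((d + 1) + m) := by
    rw [mul_assoc, show (2 : F[X]) = C 2 by exact (map_ofNat C 2).symm, coeff_C_mul]
  rw [coeff_sub, h6, h7, h1, show (d + 1) + m = d + (m + 1) by omega, h2, coeff_derivative,
    coeff_derivative] at h5
  have h8 : (Q.coeff (d + 1) * A.coeff (m + 1)) * (2 * ((m : F) + 1) - ((d : F) + 1)) = 0 := by
    linear_combination h5
  have h9 : (2 * ((m : F) + 1) - ((d : F) + 1)) ≠ 0 := by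
    intro h0
    have h10 : ((2 * (m + 1) : ℕ) : F) = ((d + 1 : ℕ) : F) := by
      push_cast
      linear_combination h0
    have := Nat.cast_injective h10
    omega
  exact (mul_ne_zero (mul_ne_zero hQ0 hA0) h9) h8

omit [CharZero F] in
/-- explicit quartics -/
theorem quartic_eq {Q : F[X]} (h4 : Q.natDegree ≤ 4) :
    Q = C (Q.coeff 4) * X ^ 4 + C (Q.coeff 3) * X ^ 3 + C (Q.coeff 2) * X ^ 2 +
      C (Q.coeff 1) * X + C (Q.coeff 0) := by
  conv_lhs => rw [Q.as_sum_range_C_mul_X_pow' (n := 5) (by omega)]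
  simp only [Finset.sum_range_succ, Finset.sum_range_zero]
  ring

omit [CharZero F] in
theorem quadratic_eq {Q : F[X]} (h : Q.natDegree ≤ 2) :
    Q = C (Q.coeff 2) * X ^ 2 + C (Q.coeff 1) * X + C (Q.coeff 0) := by
  conv_lhs => rw [Q.as_sum_range_C_mul_X_pow' (n := 3) (by omega)]
  simp only [Finset.sum_range_succ, Finset.sum_range_zero]
  ring

theorem coeffs {a b c d e a' b' c' d' e' p0 p1 p2 s : F}
    (h : 2 * (C a * X ^ 4 + C b * X ^ 3 + C c * X ^ 2 + C d * X + C e) *
        derivative (C p2 * X ^ 2 + C p1 * X + C p0) -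
      derivative (C a * X ^ 4 + C b * X ^ 3 + C c * X ^ 2 + C d * X + C e) *
        (C p2 * X ^ 2 + C p1 * X + C p0) =
      (C a' * X ^ 4 + C b' * X ^ 3 + C c' * X ^ 2 + C d' * X + C e') -
        2 * C s * (C a * X ^ 4 + C b * X ^ 3 + C c * X ^ 2 + C d * X + C e)) :
    a' = 2 * s * a - 2 * a * p1 + b * p2 ∧ b' = 2 * s * b - b * p1 + 2 * c * p2 - 4 * a * p0 ∧
      c' = 2 * s * c + 3 * d * p2 - 3 * b * p0 ∧ d' = 2 * s * d + d * p1 + 4 * e * p2 - 2 * c * p0 ∧
      e' = 2 * s * e + 2 * e * p1 - d * p0 := by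
  have h1 : C (-a' + (2 * s * a - 2 * a * p1 + b * p2)) * X ^ 4 +
      C (-b' + (2 * s * b - b * p1 + 2 * c * p2 - 4 * a * p0)) * X ^ 3 +
      C (-c' + (2 * s * c + 3 * d * p2 - 3 * b * p0)) * X ^ 2 +
      C (-d' + (2 * s * d + d * p1 + 4 * e * p2 - 2 * c * p0)) * X +
      C (-e' + (2 * s * e + 2 * e * p1 - d * p0)) = (0 : F[X]) := by
    simp only [derivative_add, derivative_mul, derivative_C, derivative_X_pow, derivative_X,
      zero_mul, zero_add, mul_one, add_zero] at h
    simp only [C_add, C_sub, C_neg, C_mul, map_ofNat]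
    simp only [Nat.cast_ofNat, map_ofNat, Nat.reduceSub, pow_one] at h
    linear_combination h
  have key : ∀ n, (C (-a' + (2 * s * a - 2 * a * p1 + b * p2)) * X ^ 4 +
      C (-b' + (2 * s * b - b * p1 + 2 * c * p2 - 4 * a * p0)) * X ^ 3 +
      C (-c' + (2 * s * c + 3 * d * p2 - 3 * b * p0)) * X ^ 2 +
      C (-d' + (2 * s * d + d * p1 + 4 * e * p2 - 2 * c * p0)) * X +
      C (-e' + (2 * s * e + 2 * e * p1 - d * p0)) : F[X]).coeff n = 0 := by
    intro n
    rw [h1, coeff_zero]
  have k4 := key 4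
  have k3 := key 3
  have k2 := key 2
  have k1 := key 1
  have k0 := key 0
  simp only [coeff_add, coeff_C_mul, coeff_X_pow, coeff_X, coeff_C] at k4 k3 k2 k1 k0
  norm_num at k4 k3 k2 k1 k0
  exact ⟨by linear_combination -k4, by linear_combination -k3, by linear_combination -k2,
    by linear_combination -k1, by linear_combination -k0⟩

end Poly

end Pool.Agent.R867.J
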