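import Pool.Agent.R867.J.KS

/-! Derivations of the function field of `w² = Q(t)` and the modulus. -/

set_option autoImplicit false

namespace Pool.Agent.R867.J

open Polynomial Pool.Agent.R867.Mov

universe u v

section defs

variable {F : Type u} [Field F]

/-- the invariant of degree two of the quartic `Q` -/
def invI (Q : F[X]) : F := 12 * Q.coeff 4 * Q.coeff 0 - 3 * Q.coeff 3 * Q.coeff 1 + Q.coeff 2 ^ 2

/-- the invariant of degree three of the quartic `Q` -/
def invJ (Q : F[X]) : F :=
  72 * Q.coeff 4 * Q.coeff 2 * Q.coeff 0 + 9 * Q.coeff 3 * Q.coeff 2 * Q.coeff 1 -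
    27 * Q.coeff 4 * Q.coeff 1 ^ 2 - 27 * Q.coeff 0 * Q.coeff 3 ^ 2 - 2 * Q.coeff 2 ^ 3

/-- `I³ / (4 I³ - J²)`, up to the factor `6912` the modulus `j` of the curve `w² = Q(t)` -/
noncomputable def modulus (Q : F[X]) : F := invI Q ^ 3 / (4 * invI Q ^ 3 - invJ Q ^ 2)

end defs

variable {k : Type u} {K : Type v} [Field k] [Field K] [Algebra k K]

/-- `K` is the function field of the curve `w² = Q(t)` over `L` -/
structure DoubleLine (L : IntermediateField k K) (t w : K) (Q : L[X]) : Prop where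
  transc : Transcendental L t
  eq : w ^ 2 = aeval t Q
  gen : IntermediateField.adjoin L {t, w} = ⊤

variable {L : IntermediateField k K} {t w : K} {Q : L[X]}

theorem aeval_ne (ht : Transcendental L t) {P : L[X]} (hP : P ≠ 0) : aeval t P ≠ 0 :=
  fun h0 => hP (transcendental_iff.1 ht P h0)

theorem aeval_inj' (ht : Transcendental L t) {P P' : L[X]} (h : aeval t P = aeval t P') :
    P = P' := by
  rw [← sub_eq_zero]
  apply transcendental_iff.1 ht
  rw [map_sub, h, sub_self]

theorem frac_rep (ht : Transcendental L t) {x : K} (hx : x ∈ IntermediateField.adjoin L {t}) :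
    ∃ A B : L[X], IsCoprime A B ∧ B ≠ 0 ∧ x = aeval t A / aeval t B := by
  classical
  obtain ⟨r, s, rfl⟩ := (IntermediateField.mem_adjoin_simple_iff L x).mp hx
  by_cases hs : s = 0
  · refine ⟨0, 1, isCoprime_one_right, one_ne_zero, ?_⟩
    rw [hs, map_zero, div_zero, zero_div]
  · have hg : EuclideanDomain.gcd r s ≠ 0 := fun h => hs (EuclideanDomain.gcd_eq_zero_iff.mp h).2
    obtain ⟨A, hA⟩ := EuclideanDomain.gcd_dvd_left r s
    obtain ⟨B, hB⟩ := EuclideanDomain.gcd_dvd_right r s
    refine ⟨A, B, ?_, ?_, ?_⟩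
    · have h1 := EuclideanDomain.gcd_eq_gcd_ab r s
      refine ⟨EuclideanDomain.gcdA r s, EuclideanDomain.gcdB r s, ?_⟩
      apply mul_left_cancel₀ hg
      rw [mul_one]
      conv_rhs => rw [h1]
      conv_rhs => enter [1, 1]; rw [hA]
      conv_rhs => enter [2, 1]; rw [hB]
      ring
    · rintro rfl
      rw [mul_zero] at hB
      exact hs hB
    · have h1 : aeval t r = aeval t (EuclideanDomain.gcd r s) * aeval t A := by
        rw [← map_mul, ← hA]
      have h2 : aeval t s = aeval t (EuclideanDomain.gcd r s) * aeval t B := by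
        rw [← map_mul, ← hB]
      rw [h1, h2, mul_div_mul_left _ _ (aeval_ne ht hg)]

/-- the square root is not in the rational function field -/
theorem DoubleLine.not_mem (h : DoubleLine L t w Q) (hQ : Q.Separable) (h3 : 3 ≤ Q.natDegree) :
    w ∉ IntermediateField.adjoin L {t} := by
  intro hw
  obtain ⟨A, B, hAB, hB, hwAB⟩ := frac_rep h.transc hw
  have hB' := aeval_ne h.transc hB
  have h1 : Q * B ^ 2 = A ^ 2 := by
    apply aeval_inj' h.transc
    rw [map_mul, map_pow, map_pow, ← h.eq, hwAB, div_pow, div_mul_cancel₀ _ (pow_ne_zero 2 hB')]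
  have h2 : B ∣ A ^ 2 := ⟨Q * B, by rw [← h1]; ring⟩
  have h4 : IsUnit B := by
    have h5 : IsCoprime (A ^ 2) B := hAB.pow_left
    exact h5.isUnit_of_dvd' h2 dvd_rfl
  obtain ⟨b, hb, rfl⟩ := Polynomial.isUnit_iff.mp h4
  have h6 : Q = (A * C b⁻¹) * (A * C b⁻¹) := by
    have h7 : C b * C b⁻¹ = (1 : L[X]) := by
      rw [← C_mul, mul_inv_cancel₀ hb.ne_zero, C_1]
    calc Q = Q * (C b) ^ 2 * (C b⁻¹) ^ 2 := by
          rw [mul_assoc, ← mul_pow, h7, one_pow, mul_one]
      _ = (A * C b⁻¹) * (A * C b⁻¹) := by rw [h1]; ring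
  have h8 := hQ.squarefree (A * C b⁻¹) (by conv_rhs => rw [h6])
  have h9 : Q.natDegree = 0 := by
    rw [h6]
    exact natDegree_eq_zero_of_isUnit (h8.mul h8)
  omega

/-- `x + y w` with `x, y` in `L(t)` -/
theorem DoubleLine.decomp (h : DoubleLine L t w Q)
    (hw : w ∉ IntermediateField.adjoin L {t}) (z : K) :
    ∃ x ∈ IntermediateField.adjoin L {t}, ∃ y ∈ IntermediateField.adjoin L {t}, z = x + y * w := by
  have htL : t ∈ IntermediateField.adjoin L {t} := IntermediateField.mem_adjoin_simple_self L t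
  have hQL : aeval t Q ∈ IntermediateField.adjoin L {t} := by
    have : ∀ P : L[X], aeval t P ∈ IntermediateField.adjoin L {t} := by
      intro P
      induction P using Polynomial.induction_on' with
      | add p q hp hq => rw [map_add]; exact add_mem hp hq
      | monomial n a =>
        rw [aeval_monomial]
        exact mul_mem (IntermediateField.algebraMap_mem _ a) (pow_mem htL n)
    exact this Q
  have hz : z ∈ IntermediateField.adjoin L {t, w} := by rw [h.gen]; trivial
  induction hz using IntermediateField.adjoin_induction with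
  | mem z hz =>
    rcases hz with rfl | hz
    · exact ⟨z, htL, 0, zero_mem _, by rw [zero_mul, add_zero]⟩
    · rw [Set.mem_singleton_iff] at hz
      exact ⟨0, zero_mem _, 1, one_mem _, by rw [hz, one_mul, zero_add]⟩
  | algebraMap c =>
    exact ⟨_, IntermediateField.algebraMap_mem _ c, 0, zero_mem _, by rw [zero_mul, add_zero]⟩
  | add u v _ _ hu hv =>
    obtain ⟨x, hx, y, hy, rfl⟩ := hu
    obtain ⟨x', hx', y', hy', rfl⟩ := hv
    exact ⟨_, add_mem hx hx', _, add_mem hy hy', by ring⟩
  | mul u v _ _ hu hv =>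
    obtain ⟨x, hx, y, hy, rfl⟩ := hu
    obtain ⟨x', hx', y', hy', rfl⟩ := hv
    refine ⟨x * x' + y * y' * aeval t Q, add_mem (mul_mem hx hx') (mul_mem (mul_mem hy hy') hQL),
      x * y' + y * x', add_mem (mul_mem hx hy') (mul_mem hy hx'), ?_⟩
    rw [← h.eq]
    ring
  | inv u _ hu =>
    obtain ⟨x, hx, y, hy, rfl⟩ := hu
    by_cases h0 : x + y * w = 0
    · exact ⟨0, zero_mem _, 0, zero_mem _, by rw [h0, inv_zero]; ring⟩
    · have h1 : x - y * w ≠ 0 := by
        intro h1
        by_cases hy0 : y = 0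
        · rw [hy0, zero_mul, sub_zero] at h1
          rw [h1, hy0] at h0
          exact h0 (by ring)
        · apply hw
          have h2 : w = x / y := by
            rw [eq_div_iff hy0]
            linear_combination -h1
          rw [h2]
          exact div_mem hx hy
      have h2 : x ^ 2 - y ^ 2 * aeval t Q ≠ 0 := by
        have : x ^ 2 - y ^ 2 * aeval t Q = (x + y * w) * (x - y * w) := by
          rw [← h.eq]; ring
        rw [this]
        exact mul_ne_zero h0 h1
      have hm : x ^ 2 - y ^ 2 * aeval t Q ∈ IntermediateField.adjoin L {t} :=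
        sub_mem (pow_mem hx 2) (mul_mem (pow_mem hy 2) hQL)
      refine ⟨x / (x ^ 2 - y ^ 2 * aeval t Q), div_mem hx hm,
        (-y) / (x ^ 2 - y ^ 2 * aeval t Q), div_mem (neg_mem hy) hm, ?_⟩
      rw [div_mul_eq_mul_div, ← add_div, eq_div_iff h2, inv_mul_eq_iff_eq_mul₀ h0, ← h.eq]
      ring

theorem decomp_zero (hw : w ∉ IntermediateField.adjoin L {t}) {x y : K}
    (hx : x ∈ IntermediateField.adjoin L {t}) (hy : y ∈ IntermediateField.adjoin L {t})
    (h : x + y * w = 0) : x = 0 := by
  by_cases hy0 : y = 0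
  · rw [hy0, zero_mul, add_zero] at h
    exact h
  · exfalso
    apply hw
    have h2 : w = -x / y := by
      rw [eq_div_iff hy0]
      linear_combination h
    rw [h2]
    exact div_mem (neg_mem hx) hy

theorem der_poly (d : Derivation k K K) (hd : ∀ z ∈ L, d z = 0) (P : L[X]) :
    d (aeval t P) = aeval t (derivative P) * d t := by
  induction P using Polynomial.induction_on' with
  | add p q hp hq => simp only [map_add, hp, hq, add_mul]
  | monomial n a =>
    have h1 : d (algebraMap L K a) = 0 := hd _ a.2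
    rw [aeval_monomial, derivative_monomial, aeval_monomial, Derivation.leibniz, h1, smul_zero,
      add_zero, Derivation.leibniz_pow]
    simp only [smul_eq_mul, nsmul_eq_mul, map_mul, map_natCast]
    ring

theorem der_frac (d : Derivation k K K) (hd : ∀ z ∈ L, d z = 0) (hdt : d t = w)
    (ht : Transcendental L t) {A B : L[X]} (hB : B ≠ 0) :
    d (aeval t A / aeval t B) =
      (aeval t (derivative A * B - A * derivative B) / aeval t B ^ 2) * w := by
  have hB' := aeval_ne ht hB
  have h1 : d (aeval t A) = d (aeval t A / aeval t B * aeval t B) := by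
    rw [div_mul_cancel₀ _ hB']
  rw [Derivation.leibniz, der_poly d hd, der_poly d hd, hdt, smul_eq_mul, smul_eq_mul] at h1
  rw [div_mul_eq_mul_div, eq_div_iff (pow_ne_zero 2 hB')]
  have h2 : aeval t B * d (aeval t A / aeval t B) = aeval t (derivative A) * w -
      aeval t A / aeval t B * (aeval t (derivative B) * w) := by
    rw [h1]
    ring
  have h3 : aeval t A / aeval t B * aeval t B = aeval t A := div_mul_cancel₀ _ hB'
  rw [map_sub, map_mul, map_mul]
  calc d (aeval t A / aeval t B) * aeval t B ^ 2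
      = (aeval t B * d (aeval t A / aeval t B)) * aeval t B := by ring
    _ = aeval t (derivative A) * w * aeval t B -
        (aeval t A / aeval t B * aeval t B) * (aeval t (derivative B) * w) := by rw [h2]; ring
    _ = _ := by rw [h3]; ring

theorem der_Lt (d : Derivation k K K) (hd : ∀ z ∈ L, d z = 0) (hdt : d t = w)
    (ht : Transcendental L t) {x : K} (hx : x ∈ IntermediateField.adjoin L {t}) :
    ∃ x₁ ∈ IntermediateField.adjoin L {t}, d x = x₁ * w := by
  obtain ⟨A, B, -, hB, rfl⟩ := frac_rep ht hx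
  refine ⟨_, ?_, der_frac d hd hdt ht hB⟩
  have hP : ∀ P : L[X], aeval t P ∈ IntermediateField.adjoin L {t} := by
    intro P
    exact (IntermediateField.mem_adjoin_simple_iff L _).mpr ⟨P, 1, by rw [map_one, div_one]⟩
  exact div_mem (hP _) (pow_mem (hP _) 2)

/-- the polynomial part of the argument -/
theorem ks_poly {F : Type u} [Field F] [CharZero F] {a b c d e r4 r3 r2 r1 r0 s : F}
    {Q R A B : F[X]} (hQe : Q = C a * X ^ 4 + C b * X ^ 3 + C c * X ^ 2 + C d * X + C e)
    (hRe : R = C r4 * X ^ 4 + C r3 * X ^ 3 + C r2 * X ^ 2 + C r1 * X + C r0)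
    (hQ : Q.Separable) (h3 : 3 ≤ Q.natDegree) (h4 : Q.natDegree ≤ 4) (hB : B ≠ 0)
    (hAB : IsCoprime A B)
    (h : 2 * Q * (derivative A * B - A * derivative B) - derivative Q * A * B =
      (R - 2 * C s * Q) * B ^ 2) :
    ∃ p0 p1 p2 : F, r4 = 2 * s * a - 2 * a * p1 + b * p2 ∧
      r3 = 2 * s * b - b * p1 + 2 * c * p2 - 4 * a * p0 ∧
      r2 = 2 * s * c + 3 * d * p2 - 3 * b * p0 ∧ r1 = 2 * s * d + d * p1 + 4 * e * p2 - 2 * c * p0 ∧
      r0 = 2 * s * e + 2 * e * p1 - d * p0 := by
  have hun := unit_of_eq hQ hB hAB h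
  obtain ⟨u, hu, rfl⟩ := Polynomial.isUnit_iff.mp hun
  obtain ⟨A₀, hA₀⟩ : ∃ A₀, A₀ = A * C u⁻¹ := ⟨_, rfl⟩
  have hbb : C u * C u⁻¹ = (1 : F[X]) := by
    rw [← C_mul, mul_inv_cancel₀ hu.ne_zero, C_1]
  have hA : A = A₀ * C u := by
    rw [hA₀, mul_assoc, mul_comm (C u⁻¹), hbb, mul_one]
  have hpoly2 : 2 * Q * derivative A₀ - derivative Q * A₀ = R - 2 * C s * Q := by
    have hCb : (C u : F[X]) ^ 2 ≠ 0 := pow_ne_zero 2 (C_ne_zero.mpr hu.ne_zero)
    apply mul_right_cancel₀ hCb
    rw [← h, hA, derivative_mul, derivative_C]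
    ring
  have hRdeg : R.natDegree ≤ 4 := by
    rw [hRe]
    compute_degree
  have h2s : (2 * C s : F[X]) = C (2 * s) := by
    rw [C_mul]
    congr 1
  have hdeg := degree_le_two h3 h4 (R := R - 2 * C s * Q) (by
    refine (natDegree_sub_le _ _).trans (max_le hRdeg ?_)
    rw [h2s]
    exact (natDegree_C_mul_le _ _).trans h4) hpoly2
  obtain ⟨p0, p1, p2, hp⟩ : ∃ p0 p1 p2 : F, A₀ = C p2 * X ^ 2 + C p1 * X + C p0 :=
    ⟨_, _, _, quadratic_eq hdeg⟩
  refine ⟨p0, p1, p2, ?_⟩
  rw [hp, hQe, hRe] at hpoly2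
  exact coeffs hpoly2

end Pool.Agent.R867.J
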