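import Pool.Agent.R867.J.KS2

/-! Derivations of the function field of `w² = Q(t)` and the modulus, continued. -/

set_option autoImplicit false

namespace Pool.Agent.R867.J

open Polynomial Pool.Agent.R867.Mov

universe u v

variable {k : Type u} {K : Type v} [Field k] [Field K] [Algebra k K]
variable {L : IntermediateField k K} {t w : K} {Q : L[X]}

theorem aeval_quartic (h4 : Q.natDegree ≤ 4) : aeval t Q =
    algebraMap L K (Q.coeff 4) * t ^ 4 + algebraMap L K (Q.coeff 3) * t ^ 3 +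
      algebraMap L K (Q.coeff 2) * t ^ 2 + algebraMap L K (Q.coeff 1) * t +
      algebraMap L K (Q.coeff 0) := by
  have h1 := congrArg (aeval t) (quartic_eq h4)
  simpa only [map_add, map_mul, map_pow, aeval_C, aeval_X] using h1

theorem aeval_dquartic (h4 : Q.natDegree ≤ 4) : aeval t (derivative Q) =
    4 * algebraMap L K (Q.coeff 4) * t ^ 3 + 3 * algebraMap L K (Q.coeff 3) * t ^ 2 +
      2 * algebraMap L K (Q.coeff 2) * t + algebraMap L K (Q.coeff 1) := by
  have h1 := congrArg (fun p => aeval t (derivative p)) (quartic_eq h4)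
  simp only [derivative_add, derivative_mul, derivative_C, derivative_X_pow, derivative_X,
    zero_mul, zero_add, mul_one, add_zero, map_add, map_mul, map_pow, aeval_C, aeval_X,
    map_natCast] at h1
  rw [h1]
  push_cast
  ring

theorem aeval_Rquartic {r4 r3 r2 r1 r0 : L} : aeval t (C r4 * X ^ 4 + C r3 * X ^ 3 +
    C r2 * X ^ 2 + C r1 * X + C r0 : L[X]) = algebraMap L K r4 * t ^ 4 + algebraMap L K r3 * t ^ 3 +
      algebraMap L K r2 * t ^ 2 + algebraMap L K r1 * t + algebraMap L K r0 := by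
  simp only [map_add, map_mul, map_pow, aeval_C, aeval_X]

theorem D_quartic (D : Derivation k K K) (a b c d e s : K) :
    D (a * s ^ 4 + b * s ^ 3 + c * s ^ 2 + d * s + e) =
      (D a * s ^ 4 + D b * s ^ 3 + D c * s ^ 2 + D d * s + D e) +
        (4 * a * s ^ 3 + 3 * b * s ^ 2 + 2 * c * s + d) * D s := by
  simp only [map_add, Derivation.leibniz, Derivation.leibniz_pow, smul_eq_mul, nsmul_eq_mul]
  push_cast
  ring

theorem D_modulus (D : Derivation k K K) {a b c d e s p0 p1 p2 : K}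
    (ha : D a = 2 * s * a - 2 * a * p1 + b * p2)
    (hb : D b = 2 * s * b - b * p1 + 2 * c * p2 - 4 * a * p0)
    (hc : D c = 2 * s * c + 3 * d * p2 - 3 * b * p0)
    (hd : D d = 2 * s * d + d * p1 + 4 * e * p2 - 2 * c * p0)
    (he : D e = 2 * s * e + 2 * e * p1 - d * p0) :
    D ((12 * a * e - 3 * b * d + c ^ 2) ^ 3 / (4 * (12 * a * e - 3 * b * d + c ^ 2) ^ 3 -
      (72 * a * c * e + 9 * b * c * d - 27 * a * d ^ 2 - 27 * e * b ^ 2 - 2 * c ^ 3) ^ 2)) = 0 := by
  have hn : ∀ n : ℕ, D (n : K) = 0 := fun n => D.map_natCast n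
  have h2 : D (2 : K) = 0 := by exact_mod_cast hn 2
  have h3 : D (3 : K) = 0 := by exact_mod_cast hn 3
  have h4 : D (4 : K) = 0 := by exact_mod_cast hn 4
  have h9 : D (9 : K) = 0 := by exact_mod_cast hn 9
  have h12 : D (12 : K) = 0 := by exact_mod_cast hn 12
  have h27 : D (27 : K) = 0 := by exact_mod_cast hn 27
  have h72 : D (72 : K) = 0 := by exact_mod_cast hn 72
  obtain ⟨I, hI⟩ : ∃ I, I = 12 * a * e - 3 * b * d + c ^ 2 := ⟨_, rfl⟩
  obtain ⟨J, hJ⟩ : ∃ J, J = 72 * a * c * e + 9 * b * c * d - 27 * a * d ^ 2 - 27 * e * b ^ 2 -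
    2 * c ^ 3 := ⟨_, rfl⟩
  have hDI : D I = 4 * s * I := by
    rw [hI]
    simp only [map_add, map_sub, Derivation.leibniz, Derivation.leibniz_pow, smul_eq_mul,
      nsmul_eq_mul, ha, hb, hc, hd, he, h12, h3]
    push_cast
    ring
  have hDJ : D J = 6 * s * J := by
    rw [hJ]
    simp only [map_add, map_sub, Derivation.leibniz, Derivation.leibniz_pow, smul_eq_mul,
      nsmul_eq_mul, ha, hb, hc, hd, he, h2, h9, h27, h72]
    push_cast
    ring
  rw [← hI, ← hJ]
  have hX : D (I ^ 3) = 12 * s * I ^ 3 := by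
    rw [Derivation.leibniz_pow, hDI, nsmul_eq_mul, smul_eq_mul]
    push_cast
    ring
  have hY : D (4 * I ^ 3 - J ^ 2) = 12 * s * (4 * I ^ 3 - J ^ 2) := by
    rw [map_sub, Derivation.leibniz, hX, h4, Derivation.leibniz_pow, hDJ]
    simp only [nsmul_eq_mul, smul_eq_mul]
    push_cast
    ring
  rw [Derivation.leibniz_div, hX, hY]
  simp only [smul_eq_mul]
  ring

theorem core_eq {q q' r x x₁ y y₁ c w dw Dw : K} (hw : w ^ 2 = q) (hdw : 2 * dw = q')
    (hDw : 2 * w * Dw = r + q' * (x + y * w))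
    (hcomm : Dw - (x₁ * w + (y * dw + w * (y₁ * w))) = c * w) :
    (r + q' * x - 2 * x₁ * q - 2 * c * q) + (-2 * y₁ * q) * w = 0 := by
  linear_combination (2 * w) * hcomm - hDw + (2 * x₁ + 2 * c + 2 * y₁ * w) * hw + (y * w) * hdw

/-- Derivations which commute with the invariant derivation up to a constant preserve the
modulus. -/
theorem DoubleLine.modulus_const [CharZero K] (h : DoubleLine L t w Q) (hQ : Q.Separable)
    (h3 : 3 ≤ Q.natDegree) (h4 : Q.natDegree ≤ 4) (d D : Derivation k K K)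
    (hd : ∀ z ∈ L, d z = 0) (hdt : d t = w) (hD : ∀ z ∈ L, D z ∈ L) {c : K} (hc : c ∈ L)
    (hcomm : D (d t) - d (D t) = c * d t) :
    D (algebraMap L K (modulus Q)) = 0 := by
  have hcL : CharZero L := ⟨fun m n h => by
    have h1 := congrArg (algebraMap L K) h
    rw [map_natCast, map_natCast] at h1
    exact_mod_cast h1⟩
  have hw := h.not_mem hQ h3
  have hw0 : w ≠ 0 := by
    rintro rfl
    exact hw (zero_mem _)
  have hδ : ∀ l : L, ∃ l' : L, algebraMap L K l' = D (algebraMap L K l) :=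
    fun l => ⟨⟨D l, hD _ l.2⟩, rfl⟩
  obtain ⟨r4, hr4⟩ := hδ (Q.coeff 4)
  obtain ⟨r3, hr3⟩ := hδ (Q.coeff 3)
  obtain ⟨r2, hr2⟩ := hδ (Q.coeff 2)
  obtain ⟨r1, hr1⟩ := hδ (Q.coeff 1)
  obtain ⟨r0, hr0⟩ := hδ (Q.coeff 0)
  have hPt : ∀ P : L[X], aeval t P ∈ IntermediateField.adjoin L {t} := by
    intro P
    exact (IntermediateField.mem_adjoin_simple_iff L _).mpr ⟨P, 1, by rw [map_one, div_one]⟩
  obtain ⟨R, hR⟩ : ∃ R : L[X], R = C r4 * X ^ 4 + C r3 * X ^ 3 + C r2 * X ^ 2 + C r1 * X + C r0 :=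
    ⟨_, rfl⟩
  have hDQ : D (aeval t Q) = aeval t R + aeval t (derivative Q) * D t := by
    rw [aeval_quartic h4, D_quartic, aeval_dquartic h4, hR, aeval_Rquartic, hr4, hr3, hr2, hr1, hr0]
  -- the equations
  obtain ⟨x, hx, y, hy, hu⟩ := h.decomp hw (D t)
  obtain ⟨A, B, hAB, hB, hxAB⟩ := frac_rep h.transc hx
  have hdx := der_frac (A := A) d hd hdt h.transc hB
  rw [← hxAB] at hdx
  obtain ⟨y₁, hy₁, hdy⟩ := der_Lt d hd hdt h.transc hy
  have hB' := aeval_ne h.transc hB
  obtain ⟨x₁, hx₁⟩ : ∃ x₁, x₁ = aeval t (derivative A * B - A * derivative B) / aeval t B ^ 2 :=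
    ⟨_, rfl⟩
  rw [← hx₁] at hdx
  have hx₁m : x₁ ∈ IntermediateField.adjoin L {t} := by
    rw [hx₁]
    exact div_mem (hPt _) (pow_mem (hPt _) 2)
  have hdw : 2 * d w = aeval t (derivative Q) := by
    have h1 := congrArg d h.eq
    rw [der_poly d hd, Derivation.leibniz_pow, hdt, nsmul_eq_mul, smul_eq_mul] at h1
    apply mul_right_cancel₀ hw0
    rw [← h1]
    push_cast
    ring
  have hDw : 2 * w * D w = aeval t R + aeval t (derivative Q) * (x + y * w) := by
    have h1 := congrArg D h.eq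
    rw [hDQ, hu, Derivation.leibniz_pow, nsmul_eq_mul, smul_eq_mul] at h1
    rw [← h1]
    push_cast
    ring
  have hE := core_eq (c := c) h.eq hdw hDw (x₁ := x₁) (y₁ := y₁) (by
    rw [hdt, hu, map_add, Derivation.leibniz, hdx, hdy, smul_eq_mul, smul_eq_mul] at hcomm
    exact hcomm)
  have hc' : c ∈ IntermediateField.adjoin L {t} :=
    IntermediateField.algebraMap_mem (IntermediateField.adjoin L {t}) (⟨c, hc⟩ : L)
  have h2m : (2 : K) ∈ IntermediateField.adjoin L {t} := by
    have := natCast_mem (IntermediateField.adjoin L {t}) 2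
    exact_mod_cast this
  have hE1 := decomp_zero hw
    (sub_mem (sub_mem (add_mem (hPt R) (mul_mem (hPt _) hx)) (mul_mem (mul_mem h2m hx₁m) (hPt Q)))
      (mul_mem (mul_mem h2m hc') (hPt Q)))
    (mul_mem (mul_mem (neg_mem h2m) hy₁) (hPt Q)) hE
  obtain ⟨c₀, hc₀⟩ : ∃ c₀ : L, algebraMap L K c₀ = c := ⟨⟨c, hc⟩, rfl⟩
  have hpoly : 2 * Q * (derivative A * B - A * derivative B) - derivative Q * A * B =
      (R - 2 * C c₀ * Q) * B ^ 2 := by
    apply aeval_inj' h.transc
    have h5 : x₁ * aeval t B ^ 2 = aeval t (derivative A * B - A * derivative B) := by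
      rw [hx₁, div_mul_cancel₀ _ (pow_ne_zero 2 hB')]
    have h6 : x * aeval t B = aeval t A := by
      rw [hxAB, div_mul_cancel₀ _ hB']
    have h7 : aeval t (2 * Q * (derivative A * B - A * derivative B) - derivative Q * A * B) =
        2 * aeval t Q * aeval t (derivative A * B - A * derivative B) -
          aeval t (derivative Q) * aeval t A * aeval t B := by
      rw [map_sub, map_mul, map_mul, map_mul, map_mul, map_ofNat]
    have h8 : aeval t ((R - 2 * C c₀ * Q) * B ^ 2) =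
        (aeval t R - 2 * c * aeval t Q) * aeval t B ^ 2 := by
      rw [map_mul, map_sub, map_mul, map_mul, map_pow, map_ofNat, aeval_C, hc₀]
    rw [h7, h8]
    linear_combination (-(aeval t B) ^ 2) * hE1 - 2 * aeval t Q * h5 +
      (aeval t (derivative Q) * aeval t B) * h6
  obtain ⟨p0, p1, p2, e4, e3, e2, e1, e0⟩ := ks_poly (quartic_eq h4) hR hQ h3 h4 hB hAB hpoly
  have f4 := congrArg (algebraMap L K) e4
  have f3 := congrArg (algebraMap L K) e3
  have f2 := congrArg (algebraMap L K) e2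
  have f1 := congrArg (algebraMap L K) e1
  have f0 := congrArg (algebraMap L K) e0
  rw [hr4] at f4
  rw [hr3] at f3
  rw [hr2] at f2
  rw [hr1] at f1
  rw [hr0] at f0
  simp only [map_add, map_sub, map_mul, map_ofNat, hc₀] at f4 f3 f2 f1 f0
  have hfin := D_modulus D f4 f3 f2 f1 f0
  have hmod : algebraMap L K (modulus Q) = (12 * algebraMap L K (Q.coeff 4) *
      algebraMap L K (Q.coeff 0) - 3 * algebraMap L K (Q.coeff 3) * algebraMap L K (Q.coeff 1) +
      algebraMap L K (Q.coeff 2) ^ 2) ^ 3 / (4 * (12 * algebraMap L K (Q.coeff 4) *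
      algebraMap L K (Q.coeff 0) - 3 * algebraMap L K (Q.coeff 3) * algebraMap L K (Q.coeff 1) +
      algebraMap L K (Q.coeff 2) ^ 2) ^ 3 - (72 * algebraMap L K (Q.coeff 4) *
      algebraMap L K (Q.coeff 2) * algebraMap L K (Q.coeff 0) + 9 * algebraMap L K (Q.coeff 3) *
      algebraMap L K (Q.coeff 2) * algebraMap L K (Q.coeff 1) - 27 * algebraMap L K (Q.coeff 4) *
      algebraMap L K (Q.coeff 1) ^ 2 - 27 * algebraMap L K (Q.coeff 0) *
      algebraMap L K (Q.coeff 3) ^ 2 - 2 * algebraMap L K (Q.coeff 2) ^ 3) ^ 2) := by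
    simp only [modulus, invI, invJ, map_div₀, map_sub, map_add, map_mul, map_pow, map_ofNat]
  rw [hmod]
  exact hfin

end Pool.Agent.R867.J
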