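import Pool.Agent.R867.J.KS3
import Pool.Agent.R867.Mov.Step
import Pool.Agent.H497R2.Der

/-! The self-map `P ↦ D - 3 P`-like of the curve `w² = Q(t)`. -/

set_option autoImplicit false

namespace Pool.Agent.R867.J

open Polynomial Pool.Agent.R867.Mov

universe u v

section alg

variable {K : Type v} [Field K]

def cC (F a1 a2 a3 : K) : K := 8 * (8 * F ^ 2 * a3 - 4 * F * a1 * a2 + a1 ^ 3)

def cD (F a1 a2 a4 : K) : K := (4 * F * a2 - a1 ^ 2) ^ 2 - 64 * F ^ 3 * a4

theorem eigen_alg {F a1 a2 a3 a4 h w dh : K} (hD : cD F a1 a2 a4 ≠ 0)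
    (hh : h * cD F a1 a2 a4 = F * cC F a1 a2 a3)
    (hdh : dh * cD F a1 a2 a4 + h * ((2 * (4 * F * a2 - a1 ^ 2) * (4 * a1 * a2 + 12 * F * a3 -
      4 * a1 * a2) - 192 * F ^ 2 * a1 * a4) * w) =
      (a1 * cC F a1 a2 a3 + F * (8 * (16 * F * a1 * a3 + 32 * F ^ 2 * a4 -
        4 * (a1 * a1 * a2 + F * (2 * a2) * a2 + F * a1 * (3 * a3)) + 3 * a1 ^ 2 * (2 * a2)))) * w) :
    8 * F ^ 2 * (w + dh) = -3 * (w * (8 * F ^ 2 + 4 * F * a1 * h +
      (4 * F * a2 - a1 ^ 2) * h ^ 2)) := by
  apply mul_left_cancel₀ (pow_ne_zero 2 hD)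
  unfold cC cD at *
  linear_combination (8 * F ^ 2 * ((4 * F * a2 - a1 ^ 2) ^ 2 - 64 * F ^ 3 * a4)) * hdh +
    (-(8 * F ^ 2 * ((2 * (4 * F * a2 - a1 ^ 2) * (4 * a1 * a2 + 12 * F * a3 -
      4 * a1 * a2) - 192 * F ^ 2 * a1 * a4) * w)) + 12 * w * F * a1 *
      ((4 * F * a2 - a1 ^ 2) ^ 2 - 64 * F ^ 3 * a4) +
      3 * w * (4 * F * a2 - a1 ^ 2) * (h * ((4 * F * a2 - a1 ^ 2) ^ 2 - 64 * F ^ 3 * a4) +
        F * (8 * (8 * F ^ 2 * a3 - 4 * F * a1 * a2 + a1 ^ 3)))) * hh

end alg

variable {k : Type u} {K : Type v} [Field k] [Field K] [Algebra k K]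
variable {L : IntermediateField k K} {t w : K} {Q : L[X]}

/-- evaluation of polynomials in two variables -/
noncomputable def evP (t w : K) : Polynomial L[X] →ₐ[L] K :=
  { toRingHom := Polynomial.eval₂RingHom (aeval t : L[X] →ₐ[L] K).toRingHom w
    commutes' := fun a => by
      change Polynomial.eval₂ (aeval t : L[X] →ₐ[L] K).toRingHom w (C (C a)) = _
      rw [Polynomial.eval₂_C]
      exact aeval_C t a }

theorem evP_C (t w : K) (p : L[X]) : evP (L := L) t w (C p) = aeval t p := by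
  change Polynomial.eval₂ (aeval t : L[X] →ₐ[L] K).toRingHom w (C p) = _
  rw [Polynomial.eval₂_C]
  rfl

theorem evP_X (t w : K) : evP (L := L) t w X = w := by
  change Polynomial.eval₂ (aeval t : L[X] →ₐ[L] K).toRingHom w X = _
  rw [Polynomial.eval₂_X]

theorem ker_evP (ht : Transcendental L t) (hw : w ^ 2 = aeval t Q)
    (hnot : w ∉ IntermediateField.adjoin L {t}) (P : Polynomial L[X]) :
    evP t w P = 0 ↔ (X ^ 2 - C Q) ∣ P := by
  have hmon : (X ^ 2 - C Q : Polynomial L[X]).Monic := monic_X_pow_sub_C Q two_ne_zero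
  have hroot : evP t w (X ^ 2 - C Q) = 0 := by
    rw [map_sub, map_pow, evP_X, evP_C, hw, sub_self]
  constructor
  · intro h0
    rw [← modByMonic_eq_zero_iff_dvd hmon]
    have h1 := modByMonic_add_div P (X ^ 2 - C Q : Polynomial L[X])
    have h2 : (P %ₘ (X ^ 2 - C Q)).natDegree ≤ 1 := by
      have h3 := natDegree_modByMonic_lt P hmon (by
        intro h4
        have h5 : (X ^ 2 - C Q : Polynomial L[X]).natDegree = 2 := natDegree_X_pow_sub_C
        rw [h4, natDegree_one] at h5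
        omega)
      rw [natDegree_X_pow_sub_C] at h3
      omega
    obtain ⟨A, B, hAB⟩ : ∃ A B : L[X], P %ₘ (X ^ 2 - C Q) = C A * X + C B :=
      exists_eq_X_add_C_of_natDegree_le_one h2
    have h3 : aeval t A * w + aeval t B = 0 := by
      have h4 := congrArg (evP t w) h1
      rw [h0, map_add, map_mul, hroot, zero_mul, add_zero, hAB, map_add, map_mul, evP_C, evP_C,
        evP_X] at h4
      exact h4
    have hA : A = 0 := by
      by_contra hA
      apply hnot
      have h5 : w = - aeval t B / aeval t A := by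
        rw [eq_div_iff (aeval_ne ht hA)]
        linear_combination h3
      rw [h5]
      have hPt : ∀ P : L[X], aeval t P ∈ IntermediateField.adjoin L {t} := by
        intro P
        exact (IntermediateField.mem_adjoin_simple_iff L _).mpr ⟨P, 1, by rw [map_one, div_one]⟩
      exact div_mem (neg_mem (hPt B)) (hPt A)
    have hB : B = 0 := by
      by_contra hB
      rw [hA, map_zero, zero_mul, zero_add] at h3
      exact aeval_ne ht hB h3
    rw [hAB, hA, hB, C_0, zero_mul, add_zero]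
  · rintro ⟨R, rfl⟩
    rw [map_mul, hroot, zero_mul]

/-- homomorphisms from the function field of `w² = Q(t)` -/
theorem DoubleLine.exists_hom (h : DoubleLine L t w Q)
    (hnot : w ∉ IntermediateField.adjoin L {t}) {t' w' : K} (ht' : Transcendental L t')
    (hw' : w' ^ 2 = aeval t' Q) (hnot' : w' ∉ IntermediateField.adjoin L {t'}) :
    ∃ T : K →ₐ[L] K, T t = t' ∧ T w = w' := by
  obtain ⟨T, hT⟩ := embedG (evP t w) (evP t' w') (fun p => by
    rw [ker_evP h.transc h.eq hnot, ker_evP ht' hw' hnot']) (by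
    intro z
    obtain ⟨x, hx, y, hy, rfl⟩ := h.decomp hnot z
    obtain ⟨A, B, -, hB, rfl⟩ := frac_rep h.transc hx
    obtain ⟨A', B', -, hB', rfl⟩ := frac_rep h.transc hy
    have h1 := aeval_ne h.transc hB
    have h2 := aeval_ne h.transc hB'
    refine ⟨C (A * B') + C (A' * B) * X, C (B * B'), ?_, ?_⟩
    · rw [evP_C, map_mul]
      exact mul_ne_zero h1 h2
    · have e1 : evP t w (C (B * B')) = aeval t B * aeval t B' := by rw [evP_C, map_mul]
      have e2 : evP t w (C (A * B') + C (A' * B) * X) =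
          aeval t A * aeval t B' + aeval t A' * aeval t B * w := by
        rw [map_add (evP t w), map_mul (evP t w) (C (A' * B)), evP_C, evP_C, evP_X, map_mul,
          map_mul]
      rw [e1, e2]
      field_simp)
  refine ⟨T, ?_, ?_⟩
  · have := hT (C X)
    rwa [evP_C, evP_C, aeval_X, aeval_X] at this
  · have := hT X
    rwa [evP_X, evP_X] at this

section polys

variable {F : Type u} [Field F]

/-- the second Taylor coefficient -/
noncomputable def pq2 (Q : F[X]) : F[X] :=
  C (6 * Q.coeff 4) * X ^ 2 + C (3 * Q.coeff 3) * X + C (Q.coeff 2)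

/-- the third Taylor coefficient -/
noncomputable def pq3 (Q : F[X]) : F[X] := C (4 * Q.coeff 4) * X + C (Q.coeff 3)

noncomputable def pC (Q : F[X]) : F[X] :=
  8 * (8 * Q ^ 2 * pq3 Q - 4 * Q * derivative Q * pq2 Q + derivative Q ^ 3)

noncomputable def pD (Q : F[X]) : F[X] :=
  (4 * Q * pq2 Q - derivative Q ^ 2) ^ 2 - 64 * Q ^ 3 * C (Q.coeff 4)

theorem pD_dvd (Q : F[X]) : Q ∣ pD Q - derivative Q ^ 4 :=
  ⟨16 * Q * pq2 Q ^ 2 - 8 * pq2 Q * derivative Q ^ 2 - 64 * Q ^ 2 * C (Q.coeff 4), by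
    unfold pD
    ring⟩

theorem pD_ne {Q : F[X]} (hQ : Q.Separable) (h3 : 3 ≤ Q.natDegree) : pD Q ≠ 0 := by
  intro h0
  have h1 := pD_dvd Q
  rw [h0, zero_sub, dvd_neg] at h1
  have h2 : IsCoprime Q (derivative Q ^ 4) := IsCoprime.pow_right hQ
  have h4 := h2.isUnit_of_dvd' dvd_rfl h1
  have := natDegree_eq_zero_of_isUnit h4
  omega

theorem no_const {Q : F[X]} (hQ : Q.Separable) (h3 : 3 ≤ Q.natDegree) (c : F)
    (h : (C c - X) * pD Q = Q * pC Q) : False := by
  have h1 : Q ∣ (C c - X) * derivative Q ^ 4 := by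
    have h2 : (C c - X) * derivative Q ^ 4 =
        Q * pC Q - (C c - X) * (pD Q - derivative Q ^ 4) := by
      rw [← h]
      ring
    rw [h2]
    exact dvd_sub (dvd_mul_right _ _) ((pD_dvd Q).mul_left _)
  have h2 : IsCoprime Q (derivative Q ^ 4) := IsCoprime.pow_right hQ
  have h4 : Q ∣ C c - X := h2.dvd_of_dvd_mul_right h1
  have h5 : (C c - X : F[X]) ≠ 0 := by
    intro h0
    have := congrArg (fun p => coeff p 1) h0
    simp [coeff_C] at this
  have h6 := natDegree_le_of_dvd h4 h5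
  have h7 : (C c - X : F[X]).natDegree ≤ 1 :=
    (natDegree_sub_le _ _).trans (by simp)
  omega

end polys

theorem aeval_pq2 : aeval t (pq2 Q) = 6 * algebraMap L K (Q.coeff 4) * t ^ 2 +
    3 * algebraMap L K (Q.coeff 3) * t + algebraMap L K (Q.coeff 2) := by
  unfold pq2
  simp only [map_add, map_mul, map_pow, aeval_C, aeval_X, map_ofNat]

theorem aeval_pq3 : aeval t (pq3 Q) = 4 * algebraMap L K (Q.coeff 4) * t +
    algebraMap L K (Q.coeff 3) := by
  unfold pq3
  simp only [map_add, map_mul, aeval_C, aeval_X, map_ofNat]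

theorem aeval_pC : aeval t (pC Q) = cC (aeval t Q) (aeval t (derivative Q)) (aeval t (pq2 Q))
    (aeval t (pq3 Q)) := by
  unfold pC cC
  simp only [map_add, map_sub, map_mul, map_pow, map_ofNat]

theorem aeval_pD : aeval t (pD Q) = cD (aeval t Q) (aeval t (derivative Q)) (aeval t (pq2 Q))
    (algebraMap L K (Q.coeff 4)) := by
  unfold pD cD
  simp only [map_sub, map_mul, map_pow, map_ofNat, aeval_C]

theorem aeval_shift (h4 : Q.natDegree ≤ 4) (h : K) : aeval (t + h) Q =
    aeval t Q + aeval t (derivative Q) * h + aeval t (pq2 Q) * h ^ 2 +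
      aeval t (pq3 Q) * h ^ 3 + algebraMap L K (Q.coeff 4) * h ^ 4 := by
  rw [aeval_quartic (t := t + h) h4, aeval_quartic (t := t) h4, aeval_dquartic h4, aeval_pq2,
    aeval_pq3]
  ring

theorem DoubleLine.exists_selfMap [CharZero K] (h : DoubleLine L t w Q)
    (hcl : ∀ z, z ∈ cl k (L : Set K) → z ∈ L) (hQ : Q.Separable) (h3 : 3 ≤ Q.natDegree)
    (h4 : Q.natDegree ≤ 4) :
    ∃ (T : K →ₐ[k] K) (d : Derivation k K K), SelfMap L t T d (-3) ∧ d t = w := by
  have hcL : CharZero L := ⟨fun m n h => by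
    have h1 := congrArg (algebraMap L K) h
    rw [map_natCast, map_natCast] at h1
    exact_mod_cast h1⟩
  have hnot := h.not_mem hQ h3
  have hw0 : w ≠ 0 := by
    rintro rfl
    exact hnot (zero_mem _)
  have hQ0 : Q ≠ 0 := by
    rintro rfl
    simp at h3
  have hPt : ∀ P : L[X], aeval t P ∈ IntermediateField.adjoin L {t} := by
    intro P
    exact (IntermediateField.mem_adjoin_simple_iff L _).mpr ⟨P, 1, by rw [map_one, div_one]⟩
  -- names
  obtain ⟨F, hF⟩ : ∃ F, F = aeval t Q := ⟨_, rfl⟩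
  obtain ⟨a1, ha1⟩ : ∃ a1, a1 = aeval t (derivative Q) := ⟨_, rfl⟩
  obtain ⟨a2, ha2⟩ : ∃ a2, a2 = aeval t (pq2 Q) := ⟨_, rfl⟩
  obtain ⟨a3, ha3⟩ : ∃ a3, a3 = aeval t (pq3 Q) := ⟨_, rfl⟩
  obtain ⟨a4, ha4⟩ : ∃ a4, a4 = algebraMap L K (Q.coeff 4) := ⟨_, rfl⟩
  have hF0 : F ≠ 0 := by
    rw [hF]
    exact aeval_ne h.transc hQ0
  have hwF : w ^ 2 = F := by rw [hF]; exact h.eq
  have hD0 : cD F a1 a2 a4 ≠ 0 := by
    rw [hF, ha1, ha2, ha4, ← aeval_pD]
    exact aeval_ne h.transc (pD_ne hQ h3)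
  obtain ⟨u, hu⟩ : ∃ u, u = F * cC F a1 a2 a3 / cD F a1 a2 a4 := ⟨_, rfl⟩
  have huD : u * cD F a1 a2 a4 = F * cC F a1 a2 a3 := by
    rw [hu, div_mul_cancel₀ _ hD0]
  have huL : u ∈ IntermediateField.adjoin L {t} := by
    rw [hu, hF, ha1, ha2, ha3, ha4, ← aeval_pC, ← aeval_pD]
    exact div_mem (mul_mem (hPt _) (hPt _)) (hPt _)
  have hF_mem : F ∈ IntermediateField.adjoin L {t} := by rw [hF]; exact hPt _
  have ha1_mem : a1 ∈ IntermediateField.adjoin L {t} := by rw [ha1]; exact hPt _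
  have ha2_mem : a2 ∈ IntermediateField.adjoin L {t} := by rw [ha2]; exact hPt _
  -- the new point
  have ht' : Transcendental L (t + u) := by
    intro halg
    have h5 : t + u ∈ L := by
      apply hcl
      rw [mem_cl_iff]
      refine isAlg_mono Subtype.val_injective Subtype.val_injective (fun r => ?_) halg
      exact ⟨⟨r, IntermediateField.subset_adjoin _ _ r.2⟩, rfl⟩
    refine no_const hQ h3 ⟨t + u, h5⟩ (aeval_inj' h.transc ?_)
    rw [map_mul, map_mul, map_sub, aeval_C, aeval_X, aeval_pC, aeval_pD, ← hF, ← ha1, ← ha2, ← ha3,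
      ← ha4]
    change (t + u - t) * _ = _
    rw [add_sub_cancel_left]
    exact huD
  have hid := ident2 (a1 := a1) (a2 := a2) (a3 := a3) (a4 := a4) (h := u) hF0 hwF huD
  obtain ⟨ρ, hρ⟩ : ∃ ρ, ρ = (8 * F ^ 2 + 4 * F * a1 * u + (4 * F * a2 - a1 ^ 2) * u ^ 2) /
      (8 * F ^ 2) := ⟨_, rfl⟩
  have hρ_mem : ρ ∈ IntermediateField.adjoin L {t} := by
    have hnat : ∀ n : ℕ, (n : K) ∈ IntermediateField.adjoin L {t} := fun n => natCast_mem _ n
    have n8 : (8 : K) ∈ IntermediateField.adjoin L {t} := by exact_mod_cast hnat 8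
    have n4 : (4 : K) ∈ IntermediateField.adjoin L {t} := by exact_mod_cast hnat 4
    rw [hρ]
    refine div_mem (add_mem (add_mem (mul_mem n8 (pow_mem hF_mem 2)) (mul_mem (mul_mem
      (mul_mem n4 hF_mem) ha1_mem) huL)) (mul_mem (sub_mem (mul_mem (mul_mem n4 hF_mem) ha2_mem)
      (pow_mem ha1_mem 2)) (pow_mem huL 2))) (mul_mem n8 (pow_mem hF_mem 2))
  have hw' : (w * ρ) ^ 2 = aeval (t + u) Q := by
    rw [aeval_shift h4, ← hF, ← ha1, ← ha2, ← ha3, ← ha4, ← hid, hρ, mul_div_assoc]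
  have hρ0 : ρ ≠ 0 := by
    intro h0
    rw [h0, mul_zero, zero_pow two_ne_zero] at hw'
    exact aeval_ne ht' hQ0 hw'.symm
  have hnot' : w * ρ ∉ IntermediateField.adjoin L {t + u} := by
    intro hmem
    have hle : IntermediateField.adjoin L {t + u} ≤ IntermediateField.adjoin L {t} := by
      rw [IntermediateField.adjoin_simple_le_iff]
      exact add_mem (IntermediateField.mem_adjoin_simple_self L t) huL
    apply hnot
    have h5 : w = w * ρ / ρ := by rw [mul_div_cancel_right₀ _ hρ0]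
    rw [h5]
    exact div_mem (hle hmem) hρ_mem
  obtain ⟨T, hTt, hTw⟩ := h.exists_hom hnot ht' hw' hnot'
  obtain ⟨D₀, hD₀⟩ := H497R2.exists_derivation L K h.transc
  obtain ⟨d, hd⟩ : ∃ d : Derivation k K K, ∀ z, d z = w * D₀ z :=
    ⟨(w • D₀).restrictScalars k, fun z => rfl⟩
  have hdt : d t = w := by rw [hd, hD₀, mul_one]
  have hdL : ∀ z ∈ L, d z = 0 := by
    intro z hz
    rw [hd]
    have := D₀.map_algebraMap (⟨z, hz⟩ : L)
    change w * D₀ (algebraMap L K ⟨z, hz⟩) = 0
    rw [this, mul_zero]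
  have hgen : ∀ z, z ∈ cl k (insert t (L : Set K)) := by
    intro z
    obtain ⟨R, hR⟩ := cl_closed (k := k) (insert t (L : Set K))
    have htR : t ∈ R := by
      have : t ∈ (R : Set K) := by
        rw [hR]
        exact subset_cl _ (Set.mem_insert _ _)
      exact this
    have hLR : ∀ z ∈ L, z ∈ R := by
      intro z hz
      have : z ∈ (R : Set K) := by
        rw [hR]
        exact subset_cl _ (Set.mem_insert_of_mem _ hz)
      exact this
    have hwR : w ∈ (R : Set K) := by
      rw [hR]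
      have h5 : w ^ 2 ∈ (R : Set K) := by
        rw [hwF, hF, aeval_quartic h4]
        exact add_mem (add_mem (add_mem (add_mem (mul_mem (hLR _ (Q.coeff 4).2) (pow_mem htR 4))
          (mul_mem (hLR _ (Q.coeff 3).2) (pow_mem htR 3))) (mul_mem (hLR _ (Q.coeff 2).2)
          (pow_mem htR 2))) (mul_mem (hLR _ (Q.coeff 1).2) htR)) (hLR _ (Q.coeff 0).2)
      rw [hR] at h5
      exact IsAlgebraic.of_pow two_pos h5
    have hz : z ∈ IntermediateField.adjoin L {t, w} := by rw [h.gen]; trivial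
    have hzR : z ∈ R := by
      induction hz using IntermediateField.adjoin_induction with
      | mem z hz =>
        rcases hz with rfl | hz
        · exact htR
        · rw [Set.mem_singleton_iff] at hz
          rw [hz]
          exact hwR
      | algebraMap c => exact hLR _ c.2
      | add x y _ _ hx hy => exact add_mem hx hy
      | inv x _ hx => exact inv_mem hx
      | mul x y _ _ hx hy => exact mul_mem hx hy
    rw [← hR]
    exact hzR
  refine ⟨T.restrictScalars k, d, ⟨?_, hcl, hgen, hdL, ?_, by norm_num, ?_⟩, hdt⟩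
  · intro z hz
    exact T.commutes (⟨z, hz⟩ : L)
  · rw [hdt]
    exact hw0
  · -- the eigenvalue
    have hdF : d F = a1 * w := by
      rw [hF, der_poly d hdL, hdt, ← ha1]
    have hA : ∀ i, d (algebraMap L K (Q.coeff i)) = 0 := fun i => hdL _ (Q.coeff i).2
    have hda1 : d a1 = 2 * a2 * w := by
      rw [ha1, ha2, aeval_dquartic h4, aeval_pq2]
      have := D_quartic d 0 (4 * algebraMap L K (Q.coeff 4)) (3 * algebraMap L K (Q.coeff 3))
        (2 * algebraMap L K (Q.coeff 2)) (algebraMap L K (Q.coeff 1)) t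
      have n2 : d (2 : K) = 0 := by exact_mod_cast d.map_natCast 2
      have n3 : d (3 : K) = 0 := by exact_mod_cast d.map_natCast 3
      have n4 : d (4 : K) = 0 := by exact_mod_cast d.map_natCast 4
      simp only [map_zero, Derivation.leibniz, hA, n2, n3, n4, smul_zero, add_zero, hdt] at this
      rw [show 4 * algebraMap L K (Q.coeff 4) * t ^ 3 + 3 * algebraMap L K (Q.coeff 3) * t ^ 2 +
        2 * algebraMap L K (Q.coeff 2) * t + algebraMap L K (Q.coeff 1) =
        0 * t ^ 4 + 4 * algebraMap L K (Q.coeff 4) * t ^ 3 +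
        3 * algebraMap L K (Q.coeff 3) * t ^ 2 + 2 * algebraMap L K (Q.coeff 2) * t +
        algebraMap L K (Q.coeff 1) by ring, this]
      ring
    have hda2 : d a2 = 3 * a3 * w := by
      rw [ha2, ha3, aeval_pq2, aeval_pq3]
      have := D_quartic d 0 0 (6 * algebraMap L K (Q.coeff 4)) (3 * algebraMap L K (Q.coeff 3))
        (algebraMap L K (Q.coeff 2)) t
      have n3 : d (3 : K) = 0 := by exact_mod_cast d.map_natCast 3
      have n6 : d (6 : K) = 0 := by exact_mod_cast d.map_natCast 6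
      simp only [map_zero, Derivation.leibniz, hA, n3, n6, smul_zero, add_zero, hdt] at this
      rw [show 6 * algebraMap L K (Q.coeff 4) * t ^ 2 + 3 * algebraMap L K (Q.coeff 3) * t +
        algebraMap L K (Q.coeff 2) = 0 * t ^ 4 + 0 * t ^ 3 +
        6 * algebraMap L K (Q.coeff 4) * t ^ 2 + 3 * algebraMap L K (Q.coeff 3) * t +
        algebraMap L K (Q.coeff 2) by ring, this]
      ring
    have hda3 : d a3 = 4 * a4 * w := by
      rw [ha3, ha4, aeval_pq3]
      have := D_quartic d 0 0 0 (4 * algebraMap L K (Q.coeff 4)) (algebraMap L K (Q.coeff 3)) t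
      have n4 : d (4 : K) = 0 := by exact_mod_cast d.map_natCast 4
      simp only [map_zero, Derivation.leibniz, hA, n4, smul_zero, add_zero, hdt] at this
      rw [show 4 * algebraMap L K (Q.coeff 4) * t + algebraMap L K (Q.coeff 3) =
        0 * t ^ 4 + 0 * t ^ 3 + 0 * t ^ 2 + 4 * algebraMap L K (Q.coeff 4) * t +
        algebraMap L K (Q.coeff 3) by ring, this]
      ring
    have hda4 : d a4 = 0 := by rw [ha4]; exact hA 4
    have n4 : d (4 : K) = 0 := by exact_mod_cast d.map_natCast 4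
    have n8 : d (8 : K) = 0 := by exact_mod_cast d.map_natCast 8
    have n64 : d (64 : K) = 0 := by exact_mod_cast d.map_natCast 64
    have hdC : d (cC F a1 a2 a3) = (8 * (16 * F * a1 * a3 + 32 * F ^ 2 * a4 -
        4 * (a1 * a1 * a2 + F * (2 * a2) * a2 + F * a1 * (3 * a3)) + 3 * a1 ^ 2 * (2 * a2))) *
        w := by
      unfold cC
      simp only [map_add, map_sub, Derivation.leibniz, Derivation.leibniz_pow, smul_eq_mul,
        nsmul_eq_mul, hdF, hda1, hda2, hda3, n4, n8]
      push_cast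
      ring
    have hdD : d (cD F a1 a2 a4) = (2 * (4 * F * a2 - a1 ^ 2) * (4 * a1 * a2 + 12 * F * a3 -
        4 * a1 * a2) - 192 * F ^ 2 * a1 * a4) * w := by
      unfold cD
      simp only [map_sub, Derivation.leibniz, Derivation.leibniz_pow, smul_eq_mul,
        nsmul_eq_mul, hdF, hda1, hda2, hda4, n4, n64]
      push_cast
      ring
    have hdu : d u * cD F a1 a2 a4 + u * ((2 * (4 * F * a2 - a1 ^ 2) *
        (4 * a1 * a2 + 12 * F * a3 - 4 * a1 * a2) - 192 * F ^ 2 * a1 * a4) * w) =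
        (a1 * cC F a1 a2 a3 + F * (8 * (16 * F * a1 * a3 + 32 * F ^ 2 * a4 -
        4 * (a1 * a1 * a2 + F * (2 * a2) * a2 + F * a1 * (3 * a3)) + 3 * a1 ^ 2 * (2 * a2)))) *
        w := by
      have h5 := congrArg d huD
      rw [Derivation.leibniz, Derivation.leibniz, hdC, hdD, hdF] at h5
      simp only [smul_eq_mul] at h5
      linear_combination h5
    have hkey := eigen_alg hD0 huD hdu
    have hG : TDer ((T.restrictScalars k : K →ₐ[k] K) : K →+* K)
        (fun z => d (T z) - (-3) * T (d z)) :=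
      (TDer.comp_left (T := ((T.restrictScalars k : K →ₐ[k] K) : K →+* K)) d).sub
        (TDer.smul (-3) (TDer.comp_right (T := ((T.restrictScalars k : K →ₐ[k] K) : K →+* K)) d))
    intro z
    have h6 := hG.cl (k := k) (S := insert t (L : Set K)) (fun c => by
      have h7 : T (algebraMap k K c) = algebraMap k K c := (T.restrictScalars k).commutes c
      rw [h7, d.map_algebraMap, map_zero, mul_zero, sub_zero]) (by
      rintro y (rfl | hy)
      · rw [hTt, hdt, hTw, map_add, hdt, sub_eq_zero]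
        have hF2 : 8 * F ^ 2 ≠ 0 := mul_ne_zero (by norm_num) (pow_ne_zero 2 hF0)
        apply mul_left_cancel₀ hF2
        rw [hkey, hρ]
        field_simp
      · have h7 : T y = y := T.commutes (⟨y, hy⟩ : L)
        rw [h7, hdL y hy, map_zero, mul_zero, sub_zero]) (hgen z)
    have h8 := sub_eq_zero.mp h6
    push_cast
    exact h8

end Pool.Agent.R867.J
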