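import Pool.Agent.R867.J.Conic
import Pool.Agent.Y742.GG.Td

/-! The self-maps of a torsor under an elliptic curve. -/

set_option autoImplicit false
set_option linter.unusedSectionVars false

namespace Pool.Agent.R867.J

open Polynomial Pool.Agent.R867.Mov WeierstrassCurve Pool.Agent.Y720.MZ Pool.Agent.Y742.GG

universe u v

section Sep

variable {F : Type u} [Field F] [CharZero F]

/-- the cubic polynomial -/
noncomputable def cub (a b c : F) : F[X] := X ^ 3 + C a * X ^ 2 + C b * X + C c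

theorem cub_natDegree (a b c : F) : (cub a b c).natDegree = 3 := by
  unfold cub
  compute_degree!

theorem cub_coeff (a b c : F) : (cub a b c).coeff 4 = 0 ∧ (cub a b c).coeff 3 = 1 ∧
    (cub a b c).coeff 2 = a ∧ (cub a b c).coeff 1 = b ∧ (cub a b c).coeff 0 = c := by
  unfold cub
  refine ⟨?_, ?_, ?_, ?_, ?_⟩ <;> simp [coeff_X, coeff_C]

theorem cub_separable {a b c : F} (h : dsc a b c ≠ 0) : (cub a b c).Separable := by
  obtain ⟨s, hs⟩ : ∃ s, a = 3 * s := ⟨a / 3, by field_simp⟩
  obtain ⟨p, hp⟩ : ∃ p, p = b - 3 * s ^ 2 := ⟨_, rfl⟩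
  obtain ⟨q, hq⟩ : ∃ q, q = 2 * s ^ 3 - s * b + c := ⟨_, rfl⟩
  have hb : b = p + 3 * s ^ 2 := by rw [hp]; ring
  have hc : c = q - 2 * s ^ 3 + s * b := by rw [hq]; ring
  have hd : dsc a b c = -(27 * q ^ 2 + 4 * p ^ 3) := by
    unfold dsc
    rw [hc, hb, hs]
    ring
  have hd0 : 27 * q ^ 2 + 4 * p ^ 3 ≠ 0 := by
    intro h0
    rw [hd, h0, neg_zero] at h
    exact h rfl
  refine ⟨C (27 * q ^ 2 + 4 * p ^ 3)⁻¹ * (27 * C q - 18 * C p * (X + C s)),
    C (27 * q ^ 2 + 4 * p ^ 3)⁻¹ * (6 * C p * (X + C s) ^ 2 - 9 * C q * (X + C s) + 4 * C p ^ 2),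
    ?_⟩
  have h1 : cub a b c = (X + C s) ^ 3 + C p * (X + C s) + C q := by
    unfold cub
    rw [hc, hb, hs]
    simp only [map_add, map_sub, map_mul, map_pow, map_ofNat]
    ring
  have h2 : derivative (cub a b c) = 3 * (X + C s) ^ 2 + C p := by
    rw [h1]
    simp only [derivative_add, derivative_mul, derivative_C, derivative_X, derivative_pow,
      zero_mul, add_zero, mul_one, zero_add]
    push_cast
    simp only [map_ofNat, Nat.reduceSub]
  rw [h2, h1]
  have h3 : C (27 * q ^ 2 + 4 * p ^ 3)⁻¹ * (27 * C q ^ 2 + 4 * C p ^ 3) = (1 : F[X]) := by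
    have : (27 * C q ^ 2 + 4 * C p ^ 3 : F[X]) = C (27 * q ^ 2 + 4 * p ^ 3) := by
      simp only [map_add, map_mul, map_pow, map_ofNat]
    rw [this, ← C_mul, inv_mul_cancel₀ hd0, C_1]
  linear_combination h3

end Sep

/-- a derivation over `ℤ` which vanishes on `k` -/
theorem exists_kDer {k : Type u} {K : Type v} [Field k] [Field K] [Algebra k K]
    (D : Derivation ℤ K K) (hD : ∀ c : k, D (algebraMap k K c) = 0) :
    ∃ D' : Derivation k K K, ∀ z, D' z = D z := by
  refine ⟨Derivation.mk' { toFun := D, map_add' := fun x y => map_add D x y, map_smul' := ?_ } ?_,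
    fun z => rfl⟩
  · intro c z
    rw [Algebra.smul_def, Derivation.leibniz, hD, smul_zero, add_zero, RingHom.id_apply,
      smul_eq_mul, ← Algebra.smul_def]
  · intro x y
    exact D.leibniz x y

theorem exists_zDer {k : Type u} {K : Type v} [Field k] [Field K] [Algebra k K]
    (D : Derivation k K K) : ∃ D' : Derivation ℤ K K, ∀ z, D' z = D z :=
  ⟨mkDer (fun z => D z) (by intro x y; simp) (by intro x y; simp), fun z => rfl⟩

variable {k K : Type u} [Field k] [Field K] [Algebra k K] {L : IntermediateField k K}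
  {K' : Type u} [Field K'] [Algebra K K'] [DecidableEq K'] {a b c : L} {X' Y' : K'}

/-- the new point -/
theorem new_point [CharZero K] (H : TD L a b c X' Y') {D₁ : Derivation ℤ K' K'}
    {E₁ : Derivation ℤ K K} (hE : ∀ z ∈ L, E₁ z = 0)
    (hD : ∀ z, D₁ (algebraMap K K' z) = algebraMap K K' (E₁ z)) (hX : D₁ X' = Y')
    {x₀ y₀ : K} {n : ℕ} (hn : n ≠ 0)
    (heq : y₀ ^ 2 = x₀ ^ 3 + (a : K) * x₀ ^ 2 + (b : K) * x₀ + (c : K))
    (hx₀ : E₁ x₀ = n * y₀) (hy₀ : E₁ y₀ = n * (3 * x₀ ^ 2 + 2 * (a : K) * x₀ + (b : K)) / 2) :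
    ∃ (x' y' : K') (h' : _) (hS : _),
      (.some X' Y' H.ns : Pt (algebraMap L K' a) (algebraMap L K' b) (algebraMap L K' c)) +
        .some (algebraMap K K' x₀) (algebraMap K K' y₀) hS = .some x' y' h' ∧
      D₁ x' = (n + 1) * y' ∧ ¬ IsAlgebraic L x' := by
  have hc' : CharZero K' := charZero_of_injective_algebraMap (algebraMap K K').injective
  have heq' : (algebraMap K K' y₀) ^ 2 = (algebraMap K K' x₀) ^ 3 +
      algebraMap L K' a * (algebraMap K K' x₀) ^ 2 + algebraMap L K' b * algebraMap K K' x₀ +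
      algebraMap L K' c := by
    rw [← map_pow, heq]
    simp only [map_add, map_mul, map_pow]
    rfl
  have hS : (cv (algebraMap L K' a) (algebraMap L K' b) (algebraMap L K' c)).toAffine.Nonsingular
      (algebraMap K K' x₀) (algebraMap K K' y₀) := by
    rw [cv_ns]
    refine ⟨heq', ?_⟩
    by_contra hcon
    push Not at hcon
    obtain ⟨h1, h2⟩ := hcon
    have h3 : algebraMap K K' y₀ = 0 := (mul_eq_zero.mp h2).resolve_left two_ne_zero
    rw [h3, zero_pow two_ne_zero] at heq'
    have h4 := dsc_root heq'.symm h1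
    apply H.disc
    have h5 : algebraMap L K' (dsc a b c) = dsc (algebraMap L K' a) (algebraMap L K' b)
        (algebraMap L K' c) := by
      unfold dsc
      simp only [map_add, map_sub, map_mul, map_pow, map_ofNat]
    rw [h4] at h5
    exact (map_eq_zero (algebraMap L K')).mp h5
  have hSp : Sp D₁ (n : K') (.some (algebraMap K K' x₀) (algebraMap K K' y₀) hS :
      Pt (algebraMap L K' a) (algebraMap L K' b) (algebraMap L K' c)) := by
    apply sp_some
    · rw [hD, hx₀, map_mul, map_natCast]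
    · rw [hD, hy₀]
      simp only [map_div₀, map_add, map_mul, map_pow, map_natCast, map_ofNat]
      rfl
  have hP := H.sp hE hD (κ := 1) (by rw [hX, one_mul])
  have hsum := hP.add (kill' hE hD a) (kill' hE hD b) hSp
  have hn1 : (1 + n : K') ≠ 0 := by
    have : ((1 + n : ℕ) : K') ≠ 0 := Nat.cast_ne_zero.mpr (by omega)
    push_cast at this
    exact this
  have hne : (.some X' Y' H.ns : Pt (algebraMap L K' a) (algebraMap L K' b) (algebraMap L K' c)) +
        .some (algebraMap K K' x₀) (algebraMap K K' y₀) hS ≠ 0 := fun h0 => hn1 (hsum.1 h0)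
  obtain ⟨x', y', h', e⟩ := exists_some hne
  obtain ⟨d1, d2⟩ := hsum.2 x' y' h' e
  refine ⟨x', y', h', hS, e, by rw [d1]; ring, ?_⟩
  intro halg
  rw [kill hE hD halg, eq_comm, mul_eq_zero, or_iff_right hn1] at d1
  have hy0 : D₁ y' = 0 := by rw [d1, map_zero]
  rw [hy0, eq_comm, div_eq_zero_iff, or_iff_left two_ne_zero, mul_eq_zero, or_iff_right hn1] at d2
  rcases (cv_ns.1 h').2 with h3 | h3
  · exact h3 d2
  · exact h3 (by rw [d1, mul_zero])

end Pool.Agent.R867.J
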