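import Pool.Agent.R867.J.Tors

/-! The self-maps of a torsor under an elliptic curve, continued. -/

set_option autoImplicit false
set_option linter.unusedSectionVars false

namespace Pool.Agent.R867.J

open Polynomial Pool.Agent.R867.Mov WeierstrassCurve Pool.Agent.Y720.MZ Pool.Agent.Y742.GG

universe u v

variable {k K : Type u} [Field k] [Field K] [Algebra k K] {L : IntermediateField k K}
  {K' : Type u} [Field K'] [Algebra K K'] [DecidableEq K'] [Algebra k K'] [IsScalarTower k K K']
  {a b c : L} {X' Y' : K'}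

/-- the elements of `K'` which are algebraic over `L` -/
structure Cst (L : IntermediateField k K) (N : IntermediateField k K') : Prop where
  mem : ∀ z, z ∈ N ↔ IsAlgebraic L z

theorem exists_cst : ∃ N : IntermediateField k K', Cst L N := by
  have : IsScalarTower k L K' := IsScalarTower.of_algebraMap_eq fun z => by
    rw [IsScalarTower.algebraMap_apply k K K']
    rfl
  exact ⟨(algebraicClosure L K').restrictScalars k, ⟨fun z => mem_algebraicClosure_iff⟩⟩

theorem Cst.base {N : IntermediateField k K'} (hN : Cst L N) (z : L) : algebraMap L K' z ∈ N :=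
  (hN.mem _).mpr (isAlgebraic_algebraMap z)

theorem Cst.closed {N : IntermediateField k K'} (hN : Cst L N) {z : K'} (hz : IsAlgebraic N z) :
    z ∈ N := by
  rw [hN.mem]
  have h1 : IsAlgebraic (algebraicClosure L K') z := by
    refine isAlg_mono Subtype.val_injective Subtype.val_injective (fun r => ?_) hz
    exact ⟨⟨r, mem_algebraicClosure_iff.mpr ((hN.mem _).mp r.2)⟩, rfl⟩
  exact h1.restrictScalars L

theorem td_line (H : TD L a b c X' Y') {N : IntermediateField k K'} (hN : Cst L N) :
    DoubleLine N X' Y' (cub ⟨_, hN.base a⟩ ⟨_, hN.base b⟩ ⟨_, hN.base c⟩) := by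
  refine ⟨?_, ?_, ?_⟩
  · intro halg
    exact H.trans ((hN.mem _).mp (hN.closed halg))
  · unfold cub
    simp only [map_add, map_mul, map_pow, aeval_X, aeval_C]
    exact H.eqn
  · rw [eq_top_iff]
    intro z _
    have hX : X' ∈ IntermediateField.adjoin N {X', Y'} :=
      IntermediateField.subset_adjoin _ _ (Set.mem_insert _ _)
    have hY : Y' ∈ IntermediateField.adjoin N {X', Y'} :=
      IntermediateField.subset_adjoin _ _ (Set.mem_insert_of_mem _ rfl)
    exact H.ind (p := fun z => z ∈ IntermediateField.adjoin N {X', Y'}) hX hY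
      (fun z hz => IntermediateField.algebraMap_mem (IntermediateField.adjoin N {X', Y'})
        (⟨z, (hN.mem z).mpr hz⟩ : N))
      (fun x y hx hy => add_mem hx hy) (fun x y hx hy => mul_mem hx hy)
      (fun x hx => inv_mem hx) z

theorem td_sep [CharZero K] (H : TD L a b c X' Y') {N : IntermediateField k K'} (hN : Cst L N) :
    (cub (⟨_, hN.base a⟩ : N) ⟨_, hN.base b⟩ ⟨_, hN.base c⟩).Separable := by
  have hc' : CharZero K' := charZero_of_injective_algebraMap (algebraMap K K').injective
  have hcN : CharZero N := ⟨fun m n h => by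
    have h1 := congrArg (algebraMap N K') h
    rw [map_natCast, map_natCast] at h1
    exact_mod_cast h1⟩
  apply cub_separable
  intro h0
  apply H.disc
  have h1 := congrArg (algebraMap N K') h0
  have h5 : algebraMap L K' (dsc a b c) = dsc (algebraMap L K' a) (algebraMap L K' b)
      (algebraMap L K' c) := by
    unfold dsc
    simp only [map_add, map_sub, map_mul, map_pow, map_ofNat]
  have h6 : algebraMap N K' (dsc (⟨_, hN.base a⟩ : N) ⟨_, hN.base b⟩ ⟨_, hN.base c⟩) =
      dsc (algebraMap L K' a) (algebraMap L K' b) (algebraMap L K' c) := by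
    unfold dsc
    simp only [map_add, map_sub, map_mul, map_pow, map_ofNat]
    rfl
  rw [h6, map_zero, ← h5] at h1
  exact (map_eq_zero (algebraMap L K')).mp h1

/-- the self-map of `K'` over the constants -/
theorem td_T [CharZero K] (H : TD L a b c X' Y') {N : IntermediateField k K'}
    (hN : Cst L N) {x' y' : K'} (hx' : ¬ IsAlgebraic L x')
    (hxy : y' ^ 2 = x' ^ 3 + algebraMap L K' a * x' ^ 2 + algebraMap L K' b * x' +
      algebraMap L K' c) :
    ∃ T' : K' →ₐ[k] K', (∀ z, IsAlgebraic L z → T' z = z) ∧ T' X' = x' ∧ T' Y' = y' := by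
  have hc' : CharZero K' := charZero_of_injective_algebraMap (algebraMap K K').injective
  have hcN : CharZero N := ⟨fun m n h => by
    have h1 := congrArg (algebraMap N K') h
    rw [map_natCast, map_natCast] at h1
    exact_mod_cast h1⟩
  obtain ⟨T, h1, h2⟩ := (td_line H hN).hom_to (td_sep H hN)
    (by rw [cub_natDegree]; norm_num) (t' := x') (w' := y')
    (fun h => hx' ((hN.mem _).mp (hN.closed h))) (by
      unfold cub
      simp only [map_add, map_mul, map_pow, aeval_X, aeval_C]
      exact hxy)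
  exact ⟨T.restrictScalars k, fun z hz => T.commutes (⟨z, (hN.mem z).mpr hz⟩ : N), h1, h2⟩

theorem some_congr {F : Type*} [Field F] [DecidableEq F] {p q r x y x₁ y₁ : F}
    {h : (cv p q r).toAffine.Nonsingular x y} {h₁ : (cv p q r).toAffine.Nonsingular x₁ y₁}
    (e : (.some x y h : Pt p q r) = .some x₁ y₁ h₁) : x = x₁ ∧ y = y₁ := by
  rw [Affine.Point.some.injEq] at e
  exact e

theorem alg_map {σ : K' →+* K'} (hσ : ∀ z : L, σ (algebraMap L K' z) = algebraMap L K' z)
    {z : K'} (hz : IsAlgebraic L z) : IsAlgebraic L (σ z) := by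
  obtain ⟨p, hp0, hp⟩ := hz
  refine ⟨p, hp0, ?_⟩
  have h1 := congrArg σ hp
  rw [map_zero, Polynomial.aeval_def, Polynomial.hom_eval₂] at h1
  rw [Polynomial.aeval_def]
  have h2 : σ.comp (algebraMap L K') = algebraMap L K' := by
    ext z
    exact hσ z
  rwa [h2] at h1

theorem td_equiv [CharZero K] (H : TD L a b c X' Y') (σ : K' ≃ₐ[K] K') (T' : K' →ₐ[k] K')
    (hT' : ∀ z, IsAlgebraic L z → T' z = z) {x₀ y₀ : K} {x' y' : K'}
    {h' : (cv (algebraMap L K' a) (algebraMap L K' b) (algebraMap L K' c)).toAffine.Nonsingular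
      x' y'} {hS : _}
    (hP : (.some X' Y' H.ns : Pt (algebraMap L K' a) (algebraMap L K' b) (algebraMap L K' c)) +
        .some (algebraMap K K' x₀) (algebraMap K K' y₀) hS = .some x' y' h')
    (hTX : T' X' = x') (hTY : T' Y' = y') (z : K') : T' (σ z) = σ (T' z) := by
  have hσL : ∀ z : L, (σ : K' →+* K') (algebraMap L K' z) = algebraMap L K' z :=
    fun z => σ.commutes (z : K)
  have hTL : ∀ z : L, (T' : K' →+* K') (algebraMap L K' z) = algebraMap L K' z :=
    fun z => hT' _ (isAlgebraic_algebraMap z)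
  obtain ⟨T₀, h, hT₀, e⟩ := H.tors σ
  have h1 : pmap (T' : K' →+* K') (hTL a) (hTL b) (hTL c) (.some X' Y' H.ns) = .some x' y' h' := by
    obtain ⟨h2, e2⟩ := pmap_some (f := (T' : K' →+* K')) (ha := hTL a) (hb := hTL b)
      (hc := hTL c) H.ns
    rw [e2, Affine.Point.some.injEq]
    exact ⟨hTX, hTY⟩
  have h3 : pmap (T' : K' →+* K') (hTL a) (hTL b) (hTL c) T₀ = T₀ := by
    rcases hT : T₀ with _ | ⟨u, v, e0⟩
    · exact map_zero _
    · obtain ⟨h2, e2⟩ := pmap_some (f := (T' : K' →+* K')) (ha := hTL a) (hb := hTL b)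
        (hc := hTL c) e0
      rw [e2, Affine.Point.some.injEq]
      obtain ⟨h4, h5⟩ := hT₀ u v e0 hT
      exact ⟨hT' u h4, hT' v h5⟩
  have h4 : pmap (σ : K' →+* K') (hσL a) (hσL b) (hσL c) (.some X' Y' H.ns) =
      .some (σ X') (σ Y') h := by
    obtain ⟨h2, e2⟩ := pmap_some (f := (σ : K' →+* K')) (ha := hσL a) (hb := hσL b)
      (hc := hσL c) H.ns
    rw [e2, Affine.Point.some.injEq]
    exact ⟨rfl, rfl⟩
  have h5 : pmap (σ : K' →+* K') (hσL a) (hσL b) (hσL c)
      (.some (algebraMap K K' x₀) (algebraMap K K' y₀) hS) =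
      .some (algebraMap K K' x₀) (algebraMap K K' y₀) hS := by
    obtain ⟨h2, e2⟩ := pmap_some (f := (σ : K' →+* K')) (ha := hσL a) (hb := hσL b)
      (hc := hσL c) hS
    rw [e2, Affine.Point.some.injEq]
    exact ⟨σ.commutes _, σ.commutes _⟩
  -- the two images
  have h6 : pmap (T' : K' →+* K') (hTL a) (hTL b) (hTL c) (.some (σ X') (σ Y') h) =
      pmap (σ : K' →+* K') (hσL a) (hσL b) (hσL c) (.some x' y' h') := by
    rw [e, map_add, h1, h3, ← hP, map_add, h4, h5, e]
    abel
  obtain ⟨h7, e7⟩ := pmap_some (f := (T' : K' →+* K')) (ha := hTL a) (hb := hTL b)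
    (hc := hTL c) h
  obtain ⟨h8, e8⟩ := pmap_some (f := (σ : K' →+* K')) (ha := hσL a) (hb := hσL b)
    (hc := hσL c) h'
  rw [e7, e8] at h6
  obtain ⟨h9, h10⟩ := some_congr h6
  refine H.ind (p := fun z => T' (σ z) = σ (T' z)) ?_ ?_ ?_ ?_ ?_ ?_ z
  · rw [hTX]
    exact h9
  · rw [hTY]
    exact h10
  · intro z hz
    rw [hT' z hz]
    exact hT' _ (alg_map (σ := (σ : K' →+* K')) hσL hz)
  · intro x y hx hy
    rw [map_add, map_add, map_add, map_add, hx, hy]
  · intro x y hx hy
    rw [map_mul, map_mul, map_mul, map_mul, hx, hy]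
  · intro x hx
    rw [map_inv₀, map_inv₀, map_inv₀, map_inv₀, hx]

end Pool.Agent.R867.J
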