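import Pool.Agent.R867.J.Tors2

/-! The self-maps of a torsor under an elliptic curve, continued. -/

set_option autoImplicit false
set_option linter.unusedSectionVars false

namespace Pool.Agent.R867.J

open Polynomial Pool.Agent.R867.Mov WeierstrassCurve Pool.Agent.Y720.MZ Pool.Agent.Y742.GG

universe u v

variable {k K : Type u} [Field k] [Field K] [Algebra k K] {L : IntermediateField k K}
  {K' : Type u} [Field K'] [Algebra K K'] [DecidableEq K'] [Algebra k K'] [IsScalarTower k K K']
  {a b c : L} {X' Y' : K'}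

/-- algebraic dependence descends -/
theorem cl_descend {S : Set K} {z : K}
    (h : algebraMap K K' z ∈ Mov.cl k (algebraMap K K' '' S)) : z ∈ Mov.cl k S := by
  rw [mem_cl] at h ⊢
  have h1 : IsAlgebraic (Algebra.adjoin k S) (algebraMap K K' z) := by
    refine isAlg_mono (R₂ := Algebra.adjoin k S) Subtype.val_injective ?_ (fun r => ?_) h
    · exact (algebraMap K K').injective.comp Subtype.val_injective
    · have h2 : Algebra.adjoin k (algebraMap K K' '' S) =
          (Algebra.adjoin k S).map (IsScalarTower.toAlgHom k K K') := by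
        rw [AlgHom.map_adjoin]
        rfl
      have h3 : (r : K') ∈ (Algebra.adjoin k S).map (IsScalarTower.toAlgHom k K K') := by
        rw [← h2]
        exact r.2
      obtain ⟨y, hy, hyr⟩ := h3
      exact ⟨⟨y, hy⟩, hyr⟩
  exact (isAlgebraic_algebraMap_iff (algebraMap K K').injective).mp h1

/-- everything in `K'` is algebraic over `X'` and the constants -/
theorem td_gen (H : TD L a b c X' Y') {N : IntermediateField k K'} (hN : Cst L N) (z : K') :
    z ∈ Mov.cl k (insert X' (N : Set K')) :=
  (td_line H hN).gen_cl (by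
    unfold cub
    compute_degree!) z

theorem cst_cl {N : IntermediateField k K'} (hN : Cst L N) {z : K'}
    (hz : z ∈ Mov.cl k (N : Set K')) : z ∈ N := by
  apply hN.closed
  rw [mem_cl_iff] at hz
  refine isAlg_mono Subtype.val_injective Subtype.val_injective (fun r => ?_) hz
  have h1 : IntermediateField.adjoin k (N : Set K') ≤ N := by
    rw [IntermediateField.adjoin_le_iff]
  exact ⟨⟨r, h1 r.2⟩, rfl⟩

/-- the constants are algebraic over the image of `L` -/
theorem cst_sub {N : IntermediateField k K'} (hN : Cst L N) :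
    (N : Set K') ⊆ Mov.cl k (algebraMap K K' '' (L : Set K)) := by
  intro z hz
  have h1 := (hN.mem z).mp hz
  rw [mem_cl_iff]
  refine isAlg_mono (algebraMap L K').injective Subtype.val_injective (fun r => ?_) h1
  exact ⟨⟨algebraMap K K' r, IntermediateField.subset_adjoin _ _ ⟨r, r.2, rfl⟩⟩, rfl⟩

theorem td_gen' (H : TD L a b c X' Y') {t : K}
    (ht : ¬ IsAlgebraic L t) (z : K) : z ∈ Mov.cl k (insert t (L : Set K)) := by
  obtain ⟨N, hN⟩ := exists_cst (L := L) (K' := K')
  have h1 : algebraMap K K' t ∉ Mov.cl k (N : Set K') := by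
    intro h
    have h2 := (hN.mem _).mp (cst_cl hN h)
    exact ht ((isAlgebraic_algebraMap_iff (algebraMap K K').injective).mp h2)
  have h2 := cl_exch (td_gen H hN (algebraMap K K' t)) h1
  apply cl_descend (K' := K')
  rw [Set.image_insert_eq]
  have h3 : insert (algebraMap K K' t) (N : Set K') ⊆
      Mov.cl k (insert (algebraMap K K' t) (algebraMap K K' '' (L : Set K))) := by
    rintro y (rfl | hy)
    · exact subset_cl _ (Set.mem_insert _ _)
    · exact cl_mono (Set.subset_insert _ _) (cst_sub hN hy)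
  refine cl_sub ?_ (td_gen H hN (algebraMap K K' z))
  rintro y (rfl | hy)
  · exact cl_sub h3 h2
  · exact h3 (Set.mem_insert_of_mem _ hy)

variable [FiniteDimensional K K'] [IsGalois K K']

theorem exists_trans (H : TD L a b c X' Y') : ∃ t : K, Transcendental L t := by
  by_contra hcon
  push Not at hcon
  have h1 : Algebra.IsAlgebraic L K := ⟨fun z => by
    by_contra h
    exact hcon z h⟩
  have h2 : Algebra.IsAlgebraic L K' := Algebra.IsAlgebraic.trans L K K'
  exact H.trans (h2.isAlgebraic X')

/-- the self-map -/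
theorem td_selfMap [CharZero K] (H : TD L a b c X' Y')
    (hcl : ∀ z, z ∈ Mov.cl k (L : Set K) → z ∈ L) :
    ∃ (t : K) (T : K →ₐ[k] K) (d : Derivation k K K) (μ : ℤ) (D₁ : Derivation k K' K'),
      SelfMap L t T d μ ∧ (∀ z, D₁ (algebraMap K K' z) = algebraMap K K' (d z)) ∧ D₁ X' = Y' ∧
      ∀ z, IsAlgebraic L z → D₁ z = 0 := by
  have hc' : CharZero K' := charZero_of_injective_algebraMap (algebraMap K K').injective
  obtain ⟨N, hN⟩ := exists_cst (L := L) (K' := K')
  obtain ⟨t, ht⟩ := exists_trans H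
  obtain ⟨E₀, hE₀⟩ := H497R2.exists_derivation L K ht
  obtain ⟨E₁, D₀, hE₁, hD₀, hX, -⟩ := H.norm (E₀ := E₀.restrictScalars k) (by
    intro h0
    have h1 := congrArg (fun D : Derivation k K K => D t) h0
    have h2 : E₀ t = 0 := h1
    rw [hE₀] at h2
    exact one_ne_zero h2) (fun z hz => E₀.map_algebraMap (⟨z, hz⟩ : L))
  obtain ⟨Ez, hEz⟩ := exists_zDer E₁
  obtain ⟨x₀, y₀, n, hn, heq, hx₀, hy₀⟩ := H.xi (E := Ez) (D := D₀)
    (fun z hz => by rw [hEz]; exact hE₁ z hz) (fun z => by rw [hD₀, hEz]) hX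
  obtain ⟨x', y', h', hS, hP, hDx', hx'⟩ := new_point H (D₁ := D₀) (E₁ := Ez)
    (fun z hz => by rw [hEz]; exact hE₁ z hz) (fun z => by rw [hD₀, hEz]) hX hn heq hx₀ hy₀
  obtain ⟨T', hT', hTX, hTY⟩ := td_T H hN hx' (cv_ns.1 h').1
  have hequi : ∀ (σ : K' ≃ₐ[K] K') (z : K'), T' (σ z) = σ (T' z) :=
    fun σ z => td_equiv H σ T' hT' hP hTX hTY z
  have hrange : ∀ z : K, ∃ y : K, algebraMap K K' y = T' (algebraMap K K' z) := by
    intro z
    have h1 : T' (algebraMap K K' z) ∈ Set.range (algebraMap K K') := by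
      rw [IsGalois.mem_range_algebraMap_iff_fixed]
      intro σ
      rw [← hequi, σ.commutes]
    exact h1
  choose g hg using hrange
  have hinj := (algebraMap K K').injective
  let T : K →ₐ[k] K :=
    { toFun := g
      map_one' := hinj (by rw [hg, map_one, map_one])
      map_zero' := hinj (by rw [hg, map_zero, map_zero])
      map_add' := fun x y => hinj (by rw [hg, map_add, map_add, map_add, hg, hg])
      map_mul' := fun x y => hinj (by rw [hg, map_mul, map_mul, map_mul, hg, hg])
      commutes' := fun x => hinj (by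
        rw [hg, ← IsScalarTower.algebraMap_apply]
        exact T'.commutes x) }
  have hT : ∀ z, algebraMap K K' (T z) = T' (algebraMap K K' z) := hg
  obtain ⟨D₁, hD₁⟩ := exists_kDer (k := k) D₀ (fun x => by
    rw [IsScalarTower.algebraMap_apply k K K', hD₀, E₁.map_algebraMap, map_zero])
  have hkillN : ∀ z, IsAlgebraic L z → D₁ z = 0 := by
    intro z hz
    rw [hD₁]
    exact kill (E := Ez) (fun z hz => by rw [hEz]; exact hE₁ z hz)
      (fun z => by rw [hD₀, hEz]) hz
  have hext : ∀ z, D₁ (algebraMap K K' z) = algebraMap K K' (E₁ z) := fun z => by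
    rw [hD₁, hD₀]
  refine ⟨t, T, E₁, (n : ℤ) + 1, D₁, ⟨?_, hcl, td_gen' H ht, hE₁, ?_, ?_, ?_⟩, hext,
    by rw [hD₁, hX], hkillN⟩
  · intro z hz
    apply hinj
    rw [hT]
    exact hT' _ ((hN.mem _).mp (hN.base ⟨z, hz⟩))
  · intro h0
    have h1 : ∀ z, E₁ z = 0 := by
      intro z
      refine der_cl E₁ (S := insert t (L : Set K)) ?_ (td_gen' H ht z)
      rintro y (rfl | hy)
      · exact h0
      · exact hE₁ y hy
    have h2 : D₁ X' = 0 := by
      refine der_cl D₁ (S := Set.range (algebraMap K K')) ?_ ?_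
      · rintro _ ⟨y, rfl⟩
        rw [hext, h1, map_zero]
      · rw [mem_cl_iff]
        refine isAlg_mono (algebraMap K K').injective Subtype.val_injective (fun r => ?_)
          (Algebra.IsAlgebraic.isAlgebraic (R := K) X')
        exact ⟨⟨_, IntermediateField.subset_adjoin _ _ ⟨r, rfl⟩⟩, rfl⟩
    rw [hD₁, hX] at h2
    exact H.Y_ne h2
  · have : (1 : ℤ) ≤ n := by exact_mod_cast Nat.one_le_iff_ne_zero.mpr hn
    rw [abs_of_pos (by omega)]
    omega
  · -- the eigenvalue
    have hG : TDer (T' : K' →+* K') (fun z => D₁ (T' z) - ((n : K') + 1) * T' (D₁ z)) :=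
      (TDer.comp_left (T := (T' : K' →+* K')) D₁).sub
        (TDer.smul ((n : K') + 1) (TDer.comp_right (T := (T' : K' →+* K')) D₁))
    have h1 : ∀ z, D₁ (T' z) - ((n : K') + 1) * T' (D₁ z) = 0 := by
      intro z
      refine hG.cl (k := k) (S := insert X' (N : Set K')) (fun x => ?_) ?_ (td_gen H hN z)
      · rw [T'.commutes, D₁.map_algebraMap, map_zero, mul_zero, sub_zero]
      · rintro y (rfl | hy)
        · rw [hTX, hD₁, hDx', hD₁, hX, hTY, sub_self]
        · have h3 := (hN.mem y).mp hy
          rw [hT' y h3, hkillN y h3, map_zero, mul_zero, sub_zero]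
    intro z
    apply hinj
    have h2 := h1 (algebraMap K K' z)
    rw [← hT, hext, hext, ← hT, sub_eq_zero] at h2
    rw [h2, map_mul]
    push_cast
    rfl

end Pool.Agent.R867.J
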